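import Pool.Agent.H30.HC.Select

/-!
# Coverings of smooth varieties by complete intersections of the covering kind
-/

set_option autoImplicit false

namespace Pool.Agent.H30.HC

open MvPolynomial

/-- `I` is the homogeneous ideal of a nonsingular projective variety of dimension `n` in `ℙ^N`
(Jacobian criterion on the punctured cone). -/
def IsVariety (N n : ℕ) (I : Ideal (MvPolynomial (Fin (N + 1)) ℂ)) : Prop :=
  (∀ f ∈ I, ∀ d : ℕ, MvPolynomial.homogeneousComponent d f ∈ I) ∧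
  I.IsPrime ∧
  ringKrullDim (MvPolynomial (Fin (N + 1)) ℂ ⧸ I) = ((n + 1 : ℕ) : WithBot ℕ∞) ∧
  (∀ p : Fin (N + 1) → ℂ, p ≠ 0 →
    (∀ f ∈ I, MvPolynomial.eval p f = 0) →
    ∃ g : Fin (N - n) → MvPolynomial (Fin (N + 1)) ℂ,
      (∀ i, g i ∈ I) ∧
      LinearIndependent ℂ
        (fun i : Fin (N - n) => fun j : Fin (N + 1) =>
          MvPolynomial.eval p (MvPolynomial.pderiv j (g i))))

/-- `I` is generated by `N - n` homogeneous polynomials. -/
def IsCI (N n : ℕ) (I : Ideal (MvPolynomial (Fin (N + 1)) ℂ)) : Prop :=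
  ∃ f : Fin (N - n) → MvPolynomial (Fin (N + 1)) ℂ,
    (∀ i, ∃ d : ℕ, (f i).IsHomogeneous d) ∧ Ideal.span (Set.range f) = I

/-- `I` is generated by polynomials in the powers `x_i ^ e`. -/
def IsPowerIdeal {m : ℕ} (e : ℕ) (I : Ideal (MvPolynomial (Fin m) ℂ)) : Prop :=
  ∃ T : Set (MvPolynomial (Fin m) ℂ), I = Ideal.span ((fun h => expand e h) '' T)

variable {m : ℕ}

lemma homog_span (T : Set (MvPolynomial (Fin m) ℂ)) (hT : ∀ h ∈ T, ∃ d, h.IsHomogeneous d) :
    ∀ f ∈ Ideal.span T, ∀ d : ℕ, homogeneousComponent d f ∈ Ideal.span T := by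
  let _ := MvPolynomial.gradedAlgebra (σ := Fin m) (R := ℂ)
  have h1 : (Ideal.span T).IsHomogeneous (homogeneousSubmodule (Fin m) ℂ) :=
    Ideal.homogeneous_span _ _ fun x hx => by
      obtain ⟨d, hd⟩ := hT x hx
      exact ⟨d, (mem_homogeneousSubmodule _ _).2 hd⟩
  intro f hf d
  exact homogeneousComponent_mem_of_mem h1 hf d

lemma isHomogeneous_lin (g : Matrix (Fin m) (Fin m) ℂ) {f : MvPolynomial (Fin m) ℂ} {d : ℕ}
    (hf : f.IsHomogeneous d) : (lin g f).IsHomogeneous d := by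
  have h := hf.aeval (fun i => ∑ j, C (g i j) * X j) (n := 1) (fun i => by
    apply IsHomogeneous.sum
    intro j _
    have h1 := (isHomogeneous_C (Fin m) (g i j)).mul (isHomogeneous_X ℂ j)
    rwa [zero_add] at h1)
  rwa [one_mul] at h

lemma isHomogeneous_expand (e : ℕ) {f : MvPolynomial (Fin m) ℂ} {d : ℕ}
    (hf : f.IsHomogeneous d) : (expand e f).IsHomogeneous (e * d) := by
  have h := hf.aeval (fun i => (X i : MvPolynomial (Fin m) ℂ) ^ e) (n := e) (fun i => by
    exact isHomogeneous_X_pow i e)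
  exact h

lemma homogeneousComponent_lin (g : Matrix (Fin m) (Fin m) ℂ) (f : MvPolynomial (Fin m) ℂ)
    (d : ℕ) : homogeneousComponent d (lin g f) = lin g (homogeneousComponent d f) := by
  classical
  have key : ∀ s : Finset ℕ, homogeneousComponent d (lin g (∑ i ∈ s, homogeneousComponent i f)) =
      lin g (homogeneousComponent d (∑ i ∈ s, homogeneousComponent i f)) := by
    intro s
    rw [map_sum, map_sum, map_sum, map_sum]
    apply Finset.sum_congr rfl
    intro i _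
    rw [homogeneousComponent_of_mem ((mem_homogeneousSubmodule _ _).2
      (isHomogeneous_lin g (homogeneousComponent_isHomogeneous i f))),
      homogeneousComponent_of_mem ((mem_homogeneousSubmodule _ _).2
      (homogeneousComponent_isHomogeneous i f))]
    split_ifs
    · rfl
    · rw [map_zero]
  have := key (Finset.range (f.totalDegree + 1))
  rwa [sum_homogeneousComponent] at this

/-- **The core.** -/
theorem core {N n e : ℕ} (hn : 1 ≤ n) (he : 0 < e) (I : Ideal (MvPolynomial (Fin (N + 1)) ℂ))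
    (hI : IsVariety N n I) :
    ∃ J : Ideal (MvPolynomial (Fin (N + 1)) ℂ), IsVariety N n J ∧ IsPowerIdeal e J ∧
      (IsCI N n J → IsCI N n I) := by
  classical
  obtain ⟨T, rfl⟩ : ∃ T : Finset (MvPolynomial (Fin (N + 1)) ℂ),
      Ideal.span (T : Set (MvPolynomial (Fin (N + 1)) ℂ)) = I := IsNoetherian.noetherian I
  set S : Set (MvPolynomial (Fin (N + 1)) ℂ) := (T : Set (MvPolynomial (Fin (N + 1)) ℂ)) with hS
  set I : Ideal (MvPolynomial (Fin (N + 1)) ℂ) := Ideal.span S with hIdef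
  obtain ⟨hhom, hprime, hdim, hjac⟩ := hI
  -- generic coordinates
  let C0 : Set ℂ := ⋃ h ∈ T, Set.range (fun u => coeff u h)
  have hC0 : C0.Countable := T.countable_toSet.biUnion fun h _ => Set.countable_range _
  obtain ⟨c, hc⟩ := exists_flex C0 hC0 ((Fin (N + 1) × Fin (N + 1)) ⊕ (Fin (N + 1) × Fin (N + 1)))
  let b : Fin (N + 1) → Fin (N + 1) → ℂ := fun i j => c (Sum.inl (i, j))
  let d : Fin (N + 1) → Fin (N + 1) → ℂ := fun i j => c (Sum.inr (i, j))
  have H : Generic S b d := by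
    constructor
    intro wb wd
    obtain ⟨D, hD1, hD2⟩ := hc (Sum.elim (fun p => wb p.1 p.2) (fun p => wd p.1 p.2))
    refine ⟨D, fun i j => hD1 (Sum.inl (i, j)), fun i j => hD1 (Sum.inr (i, j)), ?_⟩
    intro h hh u
    apply hD2
    simp only [C0, Set.mem_iUnion, Set.mem_range]
    exact ⟨h, hh, u, rfl⟩
  have hdim2 : (2 : WithBot ℕ∞) ≤ ringKrullDim (MvPolynomial (Fin (N + 1)) ℂ ⧸ Ideal.span S) := by
    rw [← hIdef, hdim]
    have : 2 ≤ n + 1 := by omega
    exact_mod_cast this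
  -- the function field
  let K := FractionRing (MvPolynomial (Fin (N + 1)) ℂ ⧸ I)
  let ρ0 : MvPolynomial (Fin (N + 1)) ℂ →ₐ[ℂ] K :=
    (IsScalarTower.toAlgHom ℂ (MvPolynomial (Fin (N + 1)) ℂ ⧸ I) K).comp (Ideal.Quotient.mkₐ ℂ I)
  have hρ0 : ∀ f, ρ0 f = 0 ↔ f ∈ I := by
    intro f
    change algebraMap (MvPolynomial (Fin (N + 1)) ℂ ⧸ I) K (Ideal.Quotient.mk I f) = 0 ↔ _
    rw [map_eq_zero_iff _ (IsFractionRing.injective (MvPolynomial (Fin (N + 1)) ℂ ⧸ I) K),
      Ideal.Quotient.eq_zero_iff_mem]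
  have hδ : ∀ i, ρ0 (form (d i)) ≠ 0 := fun i h => H.form_d_notMem hdim2 i ((hρ0 _).1 h)
  have hs : ∀ i, Transcendental ℂ (ρ0 (form (b i)) / ρ0 (form (d i))) := by
    intro i
    apply transcendental_of_forall_ne
    intro z hz
    apply H.form_b_notMem hdim2 i z
    rw [← hIdef, ← hρ0, map_sub, map_mul]
    rw [div_eq_iff (hδ i)] at hz
    rw [hz, sub_eq_zero]
    congr 1
  have hess : Algebra.EssFiniteType ℂ K := inferInstance
  obtain ⟨t, ht⟩ := exists_independent he (fun i => ρ0 (form (b i))) (fun i => ρ0 (form (d i))) hδ hs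
  let g : Matrix (Fin (N + 1)) (Fin (N + 1)) ℂ := mat b d t
  have hdet : g.det ≠ 0 := H.det_ne_zero t
  have hgg : g * g⁻¹ = 1 := Matrix.mul_nonsing_inv g (isUnit_iff_ne_zero.2 hdet)
  have hgg' : g⁻¹ * g = 1 := Matrix.nonsing_inv_mul g (isUnit_iff_ne_zero.2 hdet)
  let ρ : MvPolynomial (Fin (N + 1)) ℂ →ₐ[ℂ] K := ρ0.comp (lin g)
  have hρX : ∀ i, ρ (X i) = ρ0 (form (b i)) + t i * ρ0 (form (d i)) := by
    intro i
    have h1 : lin g (X i) = form (b i) + C (t i : ℂ) * form (d i) := by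
      rw [← form_smul, ← form_add, lin, aeval_X]
      rfl
    change ρ0 (lin g (X i)) = _
    rw [h1, map_add, map_mul]
    congr 2
    have := ρ0.commutes (t i : ℂ)
    rw [map_natCast (algebraMap ℂ K)] at this
    exact this
  have hρne : ∀ i, ρ (X i) ≠ 0 := by
    intro i h0
    rw [hρX] at h0
    apply hs i
    have h1 : ρ0 (form (b i)) / ρ0 (form (d i)) = algebraMap ℂ K (-(t i : ℂ)) := by
      rw [map_neg, map_natCast, div_eq_iff (hδ i)]
      linear_combination h0
    rw [h1]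
    exact isAlgebraic_algebraMap _
  let I₀ : Ideal (MvPolynomial (Fin (N + 1)) ℂ) := I.comap (lin g)
  let J : Ideal (MvPolynomial (Fin (N + 1)) ℂ) := I₀.map (expand e (R := ℂ) (σ := Fin (N + 1)))
  have hI₀ : ∀ f ∈ I₀, ∀ k : ℕ, homogeneousComponent k f ∈ I₀ := by
    intro f hf k
    change lin g (homogeneousComponent k f) ∈ I
    rw [← homogeneousComponent_lin]
    exact hhom _ hf k
  let E : MvPolynomial (Fin (N + 1)) ℂ ≃+* MvPolynomial (Fin (N + 1)) ℂ :=
    { (lin g).toRingHom with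
      invFun := lin g⁻¹
      left_inv := fun f => lin_lin g g⁻¹ hgg f
      right_inv := fun f => lin_lin g⁻¹ g hgg' f }
  have hmapE : I = I₀.map (E : MvPolynomial (Fin (N + 1)) ℂ →+* MvPolynomial (Fin (N + 1)) ℂ) := by
    have h1 : I₀ = I.comap (E : MvPolynomial (Fin (N + 1)) ℂ →+* MvPolynomial (Fin (N + 1)) ℂ) := rfl
    rw [h1]
    exact (Ideal.map_comap_of_surjective
      (E : MvPolynomial (Fin (N + 1)) ℂ →+* MvPolynomial (Fin (N + 1)) ℂ) E.surjective I).symm
  refine ⟨J, ⟨?_, ?_, ?_, ?_⟩, ?_, ?_⟩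
  · -- homogeneous
    have h1 : J = Ideal.span ((fun h => expand e h) '' {h | h ∈ I₀ ∧ ∃ k, h.IsHomogeneous k}) := by
      apply le_antisymm
      · rw [Ideal.map_le_iff_le_comap]
        intro f hf
        rw [Ideal.mem_comap, ← sum_homogeneousComponent f, map_sum]
        apply Ideal.sum_mem
        intro k _
        exact Ideal.subset_span ⟨_, ⟨hI₀ f hf k, k, homogeneousComponent_isHomogeneous k f⟩, rfl⟩
      · rw [Ideal.span_le]
        rintro _ ⟨h, ⟨hh, -⟩, rfl⟩
        exact Ideal.mem_map_of_mem _ hh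
    rw [h1]
    apply homog_span
    rintro _ ⟨h, ⟨-, k, hk⟩, rfl⟩
    exact ⟨e * k, isHomogeneous_expand e hk⟩
  · -- prime
    apply isPrime_map_expand he I₀ ρ (fun f => hρ0 _) hρne
    rintro a ⟨w, hw⟩
    apply ht a
    refine ⟨w, ?_⟩
    rw [← hw]
    apply Finset.prod_congr rfl
    intro j _
    rw [hρX]
  · -- dimension
    rw [ringKrullDim_map_expand he I₀, ← hdim]
    exact ringKrullDim_eq_of_ringEquiv (Ideal.quotientEquiv I₀ I E hmapE)
  · -- Jacobian criterion
    refine jacobian he S g g⁻¹ hgg ?_ hjac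
    intro w
    obtain ⟨D, hD1, hD2, hD3⟩ := H.flex w 0
    refine ⟨D, fun i j => ?_, hD3⟩
    have h1 : g i j = b i j + t i * d i j := rfl
    rw [h1, map_add, hD1, Derivation.leibniz, hD2, Derivation.map_natCast]
    simp
  · exact ⟨I₀, rfl⟩
  · rintro ⟨F, -, hF⟩
    obtain ⟨h, hh1, hh2⟩ := descent he I₀ hI₀ F hF
    refine ⟨fun i => lin g (h i), fun i => ?_, ?_⟩
    · obtain ⟨k, hk⟩ := hh1 i
      exact ⟨k, isHomogeneous_lin g hk⟩
    · rw [hmapE, ← hh2, Ideal.map_span, ← Set.range_comp]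
      rfl

end Pool.Agent.H30.HC
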