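import Pool.Agent.H30.HC.Expand

/-!
# The dimension of the extended ideal
-/

set_option autoImplicit false

namespace Pool.Agent.H30.HC

open MvPolynomial

/-- An integral extension has the same Krull dimension. -/
theorem ringKrullDim_eq_of_isIntegral (A B : Type*) [CommRing A] [CommRing B] [Algebra A B]
    [Algebra.IsIntegral A B] (hinj : Function.Injective (algebraMap A B)) :
    ringKrullDim B = ringKrullDim A := by
  apply le_antisymm
  · refine Order.krullDim_le_of_strictMono (PrimeSpectrum.comap (algebraMap A B)) ?_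
    intro P Q hPQ
    exact Ideal.IsIntegral.comap_lt_comap (I := P.asIdeal) (J := Q.asIdeal) hPQ
  · refine iSup_le fun l => ?_
    have : FaithfulSMul A B := (faithfulSMul_iff_algebraMap_injective A B).2 hinj
    obtain ⟨P, hP⟩ := Algebra.IsIntegral.comap_surjective A B l.head
    have : P.asIdeal.LiesOver l.head.asIdeal := ⟨by rw [← hP]; rfl⟩
    obtain ⟨L, hL, -, -⟩ := Ideal.exists_ltSeries_of_hasGoingUp l P.asIdeal
    rw [← hL]
    exact Order.LTSeries.length_le_krullDim L

variable {m : ℕ}

lemma isIntegral_expand {e : ℕ} (he : 0 < e) :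
    ((expand e (R := ℂ) (σ := Fin m)) : MvPolynomial (Fin m) ℂ →+* MvPolynomial (Fin m) ℂ).IsIntegral := by
  intro F
  induction F using MvPolynomial.induction_on with
  | C c =>
    have h1 : C c = ((expand e (R := ℂ) (σ := Fin m)) :
      MvPolynomial (Fin m) ℂ →+* MvPolynomial (Fin m) ℂ) (C c) := (expand_C e c).symm
    rw [h1]
    exact RingHom.isIntegralElem_map _
  | add p q hp hq => exact RingHom.IsIntegralElem.add _ hp hq
  | mul_X p j hp =>
    refine RingHom.IsIntegralElem.mul _ hp ?_
    refine ⟨Polynomial.X ^ e - Polynomial.C (X j), Polynomial.monic_X_pow_sub_C _ he.ne', ?_⟩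
    rw [Polynomial.eval₂_sub, Polynomial.eval₂_pow, Polynomial.eval₂_X, Polynomial.eval₂_C]
    change X j ^ e - expand e (X j) = 0
    rw [expand_X, sub_self]

/-- **The dimension of the extended ideal.** -/
theorem ringKrullDim_map_expand {e : ℕ} (he : 0 < e) (I : Ideal (MvPolynomial (Fin m) ℂ)) :
    ringKrullDim (MvPolynomial (Fin m) ℂ ⧸ I.map (expand e (R := ℂ) (σ := Fin m))) =
      ringKrullDim (MvPolynomial (Fin m) ℂ ⧸ I) := by
  let φ : MvPolynomial (Fin m) ℂ →+* MvPolynomial (Fin m) ℂ := (expand e (R := ℂ) (σ := Fin m))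
  let J := I.map (expand e (R := ℂ) (σ := Fin m))
  let f : MvPolynomial (Fin m) ℂ ⧸ I →+* MvPolynomial (Fin m) ℂ ⧸ J :=
    Ideal.quotientMap J φ Ideal.le_comap_map
  have hf : Function.Injective f := by
    apply Ideal.quotientMap_injective'
    intro h hh
    exact (expand_mem_map_iff he I h).1 hh
  have hint : f.IsIntegral := by
    have h1 : f.comp (Ideal.Quotient.mk I) = (Ideal.Quotient.mk J).comp φ := by
      exact RingHom.ext fun x => rfl
    have h2 : ((Ideal.Quotient.mk J).comp φ).IsIntegral :=
      RingHom.IsIntegral.trans _ _ (isIntegral_expand he)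
        (RingHom.isIntegral_of_surjective _ Ideal.Quotient.mk_surjective)
    rw [← h1] at h2
    exact RingHom.IsIntegral.tower_top _ _ h2
  algebraize [f]
  exact ringKrullDim_eq_of_isIntegral _ _ hf

end Pool.Agent.H30.HC
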