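import Pool.Agent.H30.HC.Kummer

/-!
# Polynomials over the polynomials in the `e`-th powers of the variables

`ℂ[x]` is free over `ℂ[x ^ e]` with the basis of the monomials with exponents less than `e`.
`part a F` is the component of `F` at the monomial `x ^ a`.
-/

set_option autoImplicit false

namespace Pool.Agent.H30.HC

open MvPolynomial

variable {m : ℕ}

/-- The exponents, divided by `e`. -/
noncomputable def expDiv (e : ℕ) (u : Fin m →₀ ℕ) : Fin m →₀ ℕ :=
  u.mapRange (· / e) (Nat.zero_div e)

@[simp] lemma expDiv_apply (e : ℕ) (u : Fin m →₀ ℕ) (j : Fin m) : expDiv e u j = u j / e := rfl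

/-- The component of a polynomial at the monomial `x ^ a`. -/
noncomputable def part (e : ℕ) (a : Fin m → Fin e) :
    MvPolynomial (Fin m) ℂ →ₗ[ℂ] MvPolynomial (Fin m) ℂ :=
  (basisMonomials (Fin m) ℂ).constr ℂ
    (fun u => if ∀ j, u j % e = a j then monomial (expDiv e u) 1 else 0)

lemma part_monomial (e : ℕ) (a : Fin m → Fin e) (u : Fin m →₀ ℕ) (c : ℂ) :
    part e a (monomial u c) = if ∀ j, u j % e = a j then monomial (expDiv e u) c else 0 := by
  have h1 : monomial u c = c • (basisMonomials (Fin m) ℂ) u := by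
    rw [coe_basisMonomials, smul_monomial, smul_eq_mul, mul_one]
  rw [h1, map_smul, part, Module.Basis.constr_basis]
  split_ifs
  · rw [smul_monomial, smul_eq_mul, mul_one]
  · rw [smul_zero]

lemma part_expand_mul {e : ℕ} (he : 0 < e) (a : Fin m → Fin e) (h F : MvPolynomial (Fin m) ℂ) :
    part e a (expand e h * F) = h * part e a F := by
  induction h using MvPolynomial.induction_on' with
  | add p q hp hq => rw [map_add, add_mul, map_add, hp, hq, add_mul]
  | monomial v c =>
    induction F using MvPolynomial.induction_on' with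
    | add p q hp hq => rw [mul_add, map_add, hp, hq, map_add, mul_add]
    | monomial u c' =>
      rw [expand_monomial, monomial_mul, part_monomial, part_monomial]
      have h1 : ∀ j, (e • v + u) j % e = u j % e := by
        intro j
        rw [Finsupp.add_apply, Finsupp.smul_apply, smul_eq_mul, Nat.mul_add_mod]
      have h2 : expDiv e (e • v + u) = v + expDiv e u := by
        ext j
        rw [expDiv_apply, Finsupp.add_apply, Finsupp.smul_apply, smul_eq_mul, Finsupp.add_apply,
          expDiv_apply, Nat.mul_add_div he]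
      simp only [h1, h2]
      split_ifs
      · rw [monomial_mul]
      · rw [mul_zero]

/-- The monomial `x ^ a`. -/
noncomputable def xpow {e : ℕ} (a : Fin m → Fin e) : MvPolynomial (Fin m) ℂ :=
  ∏ j, X j ^ (a j : ℕ)

lemma xpow_eq {e : ℕ} (a : Fin m → Fin e) :
    xpow a = monomial (Finsupp.equivFunOnFinite.symm fun j => (a j : ℕ)) (1 : ℂ) := by
  rw [xpow, monomial_eq, C_1, one_mul, Finsupp.prod_fintype _ _ (fun j => pow_zero _)]
  rfl

lemma sum_xpow_mul_expand_part {e : ℕ} (he : 0 < e) (F : MvPolynomial (Fin m) ℂ) :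
    ∑ a : Fin m → Fin e, xpow a * expand e (part e a F) = F := by
  classical
  induction F using MvPolynomial.induction_on' with
  | add p q hp hq =>
    conv_rhs => rw [← hp, ← hq]
    rw [← Finset.sum_add_distrib]
    apply Finset.sum_congr rfl
    intro a _
    rw [map_add, map_add, mul_add]
  | monomial u c =>
    rw [Finset.sum_eq_single (fun j => (⟨u j % e, Nat.mod_lt _ he⟩ : Fin e))]
    · rw [part_monomial, if_pos (fun j => rfl), expand_monomial, xpow_eq, monomial_mul, one_mul]
      have h1 : (Finsupp.equivFunOnFinite.symm fun j : Fin m => u j % e) + e • expDiv e u = u := by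
        ext j
        rw [Finsupp.add_apply, Finsupp.smul_apply, expDiv_apply, smul_eq_mul]
        exact Nat.mod_add_div _ _
      rw [h1]
    · intro a _ ha
      rw [part_monomial, if_neg, map_zero, mul_zero]
      intro h
      apply ha
      funext j
      exact Fin.ext (h j).symm
    · intro h
      exact absurd (Finset.mem_univ _) h

/-- The extended ideal. -/
lemma mem_map_expand_iff {e : ℕ} (he : 0 < e) (I : Ideal (MvPolynomial (Fin m) ℂ))
    (F : MvPolynomial (Fin m) ℂ) :
    F ∈ I.map (expand e (R := ℂ) (σ := Fin m)) ↔ ∀ a : Fin m → Fin e, part e a F ∈ I := by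
  constructor
  · intro hF
    have key : ∀ (G : MvPolynomial (Fin m) ℂ) (a : Fin m → Fin e), part e a (G * F) ∈ I := by
      refine Submodule.span_induction (p := fun F _ => ∀ (G : MvPolynomial (Fin m) ℂ)
        (a : Fin m → Fin e), part e a (G * F) ∈ I) ?_ ?_ ?_ ?_ hF
      · rintro _ ⟨h, hh, rfl⟩ G a
        rw [mul_comm, part_expand_mul he]
        exact Ideal.mul_mem_right _ _ hh
      · intro G a
        rw [mul_zero, map_zero]
        exact Ideal.zero_mem _
      · intro F F' _ _ h1 h2 G a
        rw [mul_add, map_add]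
        exact Ideal.add_mem _ (h1 G a) (h2 G a)
      · intro c F _ h1 G a
        rw [smul_eq_mul, ← mul_assoc]
        exact h1 _ a
    intro a
    have := key 1 a
    rwa [one_mul] at this
  · intro h
    rw [← sum_xpow_mul_expand_part he F]
    exact Ideal.sum_mem _ fun a _ => Ideal.mul_mem_left _ _ (Ideal.mem_map_of_mem _ (h a))

/-- The contraction of the extended ideal. -/
lemma expand_mem_map_iff {e : ℕ} (he : 0 < e) (I : Ideal (MvPolynomial (Fin m) ℂ))
    (h : MvPolynomial (Fin m) ℂ) :
    expand e h ∈ I.map (expand e (R := ℂ) (σ := Fin m)) ↔ h ∈ I := by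
  constructor
  · intro hF
    have h1 := (mem_map_expand_iff he I _).1 hF (fun _ => ⟨0, he⟩)
    rw [← mul_one (expand e h), part_expand_mul he] at h1
    have h2 : part e (fun _ : Fin m => ⟨0, he⟩) (1 : MvPolynomial (Fin m) ℂ) = 1 := by
      have : (1 : MvPolynomial (Fin m) ℂ) = monomial 0 1 := rfl
      have h0 : expDiv e (0 : Fin m →₀ ℕ) = 0 := by
        ext j
        rw [expDiv_apply, Finsupp.zero_apply, Nat.zero_div]
      rw [this, part_monomial, if_pos, h0]
      intro j; simp
    rwa [h2, mul_one] at h1
  · exact fun h => Ideal.mem_map_of_mem _ h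

/-- **The extended ideal is prime if the coordinates are independent modulo `e`-th powers.** -/
theorem isPrime_map_expand {e : ℕ} (he : 0 < e) {K : Type} [Field K] [Algebra ℂ K]
    (I : Ideal (MvPolynomial (Fin m) ℂ)) (ρ : MvPolynomial (Fin m) ℂ →ₐ[ℂ] K)
    (hker : ∀ f, ρ f = 0 ↔ f ∈ I) (hX : ∀ j, ρ (X j) ≠ 0)
    (hK : ∀ a : Fin m → ℕ, (∃ w : K, ∏ j, ρ (X j) ^ a j = w ^ e) → ∀ j, e ∣ a j) :
    (I.map (expand e (R := ℂ) (σ := Fin m))).IsPrime := by
  have hex : ∀ j, ∃ z : AlgebraicClosure K, z ^ e = algebraMap K (AlgebraicClosure K) (ρ (X j)) :=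
    fun j => IsAlgClosed.exists_pow_nat_eq _ he
  choose ξ hξ using hex
  have hli := kummer_linearIndependent he (fun j => ρ (X j)) hX hK ξ hξ
  rw [Fintype.linearIndependent_iff] at hli
  let Θ : MvPolynomial (Fin m) ℂ →ₐ[ℂ] AlgebraicClosure K := aeval ξ
  have h1 : ∀ h : MvPolynomial (Fin m) ℂ,
      Θ (expand e h) = algebraMap K (AlgebraicClosure K) (ρ h) := by
    intro h
    have h2 : Θ.comp (expand e) = (IsScalarTower.toAlgHom ℂ K (AlgebraicClosure K)).comp ρ := by
      apply MvPolynomial.algHom_ext
      intro j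
      rw [AlgHom.comp_apply, expand_X, map_pow, AlgHom.comp_apply]
      change (aeval ξ (X j)) ^ e = algebraMap K (AlgebraicClosure K) (ρ (X j))
      rw [aeval_X, hξ]
    exact DFunLike.congr_fun h2 h
  have h2 : I.map (expand e (R := ℂ) (σ := Fin m)) = RingHom.ker Θ := by
    ext F
    rw [mem_map_expand_iff he, RingHom.mem_ker]
    have h3 : Θ F = ∑ a : Fin m → Fin e, ρ (part e a F) • ∏ j, ξ j ^ (a j : ℕ) := by
      conv_lhs => rw [← sum_xpow_mul_expand_part he F]
      rw [map_sum]
      apply Finset.sum_congr rfl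
      intro a _
      rw [map_mul, h1, Algebra.smul_def, mul_comm, xpow, map_prod]
      congr 1
      apply Finset.prod_congr rfl
      intro j _
      rw [map_pow]
      change (aeval ξ (X j)) ^ (a j : ℕ) = _
      rw [aeval_X]
    constructor
    · intro h
      rw [h3]
      apply Finset.sum_eq_zero
      intro a _
      rw [(hker _).2 (h a), zero_smul]
    · intro h a
      rw [← hker]
      exact hli _ (h3 ▸ h) a
  rw [h2]
  exact RingHom.ker_isPrime Θ

end Pool.Agent.H30.HC
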