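import Mathlib

/-!
# Generic complex numbers

For a countable set `S` of complex numbers and a finite index set `ι` there are complex numbers
`c i` such that every assignment of values `D (c i)` is attained by a derivation `D` of `ℂ` with
`D = 0` on `S`.
-/

set_option autoImplicit false

namespace Pool.Agent.H30.HC

open IntermediateField TensorProduct KaehlerDifferential

/-- Derivations extend along formally étale extensions. -/
lemma exists_derivation_of_formallyEtale (k A : Type) [CommRing k] [CommRing A] [Algebra k A]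
    [Algebra k ℂ] [Algebra A ℂ] [IsScalarTower k A ℂ] [Algebra.FormallyEtale A ℂ]
    (d : Derivation k A ℂ) :
    ∃ D : Derivation k ℂ ℂ, ∀ a : A, D (algebraMap A ℂ a) = d a := by
  let f : ℂ ⊗[A] Ω[A⁄k] →ₗ[ℂ] ℂ := d.liftKaehlerDifferential.liftBaseChange ℂ
  let g : Ω[ℂ⁄k] →ₗ[ℂ] ℂ := f.comp (tensorKaehlerEquivOfFormallyEtale k A ℂ).symm.toLinearMap
  refine ⟨g.compDer (KaehlerDifferential.D k ℂ), fun a => ?_⟩
  change f ((tensorKaehlerEquivOfFormallyEtale k A ℂ).symm (KaehlerDifferential.D k ℂ (algebraMap A ℂ a))) = _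
  rw [tensorKaehlerEquivOfFormallyEtale_symm_D_algebraMap]
  simp [f]

open scoped IntermediateField.algebraAdjoinAdjoin in
/-- Derivations with prescribed values on a transcendence basis. -/
lemma exists_derivation (k : Type) [Field k] [CharZero k] [Algebra k ℂ] (B : Set ℂ)
    (hB : IsTranscendenceBasis k ((↑) : B → ℂ)) (w : B → ℂ) :
    ∃ D : Derivation k ℂ ℂ, ∀ b : B, D b = w b := by
  have h1 : Algebra.FormallyEtale (Algebra.adjoin k (Set.range ((↑) : B → ℂ)))
      (IntermediateField.adjoin k (Set.range ((↑) : B → ℂ))) :=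
    .of_isLocalization (nonZeroDivisors _)
  have halg : Algebra.IsAlgebraic (IntermediateField.adjoin k (Set.range ((↑) : B → ℂ))) ℂ :=
    hB.isAlgebraic_field
  have hsep : Algebra.IsSeparable (IntermediateField.adjoin k (Set.range ((↑) : B → ℂ))) ℂ :=
    inferInstance
  have h2 : Algebra.FormallyEtale (IntermediateField.adjoin k (Set.range ((↑) : B → ℂ))) ℂ :=
    Algebra.FormallyEtale.of_isSeparable _ ℂ
  have h3 : Algebra.FormallyEtale (Algebra.adjoin k (Set.range ((↑) : B → ℂ))) ℂ :=
    .comp _ (IntermediateField.adjoin k (Set.range ((↑) : B → ℂ))) _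
  let e := hB.1.aevalEquiv
  let _ : Module (MvPolynomial B k) ℂ := Module.compHom ℂ e.toAlgHom.toRingHom
  have hsm : ∀ (p : MvPolynomial B k) (z : ℂ), p • z = (e p : ℂ) * z := fun p z => rfl
  have _ : IsScalarTower k (MvPolynomial B k) ℂ := by
    constructor
    intro x p z
    rw [hsm, hsm, map_smul, Subalgebra.coe_smul, smul_mul_assoc]
  let d0 : Derivation k (MvPolynomial B k) ℂ := MvPolynomial.mkDerivation k w
  let d : Derivation k (Algebra.adjoin k (Set.range ((↑) : B → ℂ))) ℂ :=
    Derivation.mk' ((d0 : MvPolynomial B k →ₗ[k] ℂ).comp e.symm.toLinearMap) (by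
      intro a b
      change d0 (e.symm (a * b)) = a • d0 (e.symm b) + b • d0 (e.symm a)
      rw [map_mul, Derivation.leibniz, hsm, hsm]
      simp
      rfl)
  obtain ⟨D, hD⟩ := exists_derivation_of_formallyEtale k _ d
  refine ⟨D, fun b => ?_⟩
  have h4 := hD (e (MvPolynomial.X b))
  have h5 : algebraMap (Algebra.adjoin k (Set.range ((↑) : B → ℂ))) ℂ (e (MvPolynomial.X b)) = b := by
    rw [hB.1.algebraMap_aevalEquiv]
    simp
  rw [h5] at h4
  rw [h4]
  change d0 (e.symm (e (MvPolynomial.X b))) = w b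
  rw [AlgEquiv.symm_apply_apply]
  exact MvPolynomial.mkDerivation_X _ _ _

/-- **Generic complex numbers.** -/
theorem exists_flex (S : Set ℂ) (hS : S.Countable) (ι : Type) [Finite ι] :
    ∃ c : ι → ℂ, ∀ w : ι → ℂ, ∃ D : Derivation ℤ ℂ ℂ, (∀ i, D (c i) = w i) ∧ ∀ x ∈ S, D x = 0 := by
  classical
  let k := Subfield.closure S
  have hk : Cardinal.mk k ≤ Cardinal.aleph0 :=
    (Subfield.cardinalMk_closure_le_max S).trans (max_le (Cardinal.mk_le_aleph0_iff.2 hS) le_rfl)
  have hch : CharZero k := inferInstance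
  obtain ⟨B, hB⟩ := exists_isTranscendenceBasis k ℂ
  have hBc : Cardinal.mk ℂ = Cardinal.mk B :=
    IsAlgClosed.cardinal_eq_cardinal_transcendence_basis_of_aleph0_lt'
      ((↑) : B → ℂ) hB hk (by rw [Cardinal.mk_complex]; exact Cardinal.aleph0_lt_continuum)
  have hinf : Infinite B := by
    rw [Cardinal.infinite_iff, ← hBc, Cardinal.mk_complex]
    exact Cardinal.aleph0_le_continuum
  obtain ⟨f⟩ : Nonempty (ι ↪ B) := by
    obtain ⟨n, ⟨e⟩⟩ := Finite.exists_equiv_fin ι
    exact ⟨e.toEmbedding.trans ((Fin.valEmbedding).trans (Infinite.natEmbedding B))⟩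
  refine ⟨fun i => f i, fun w => ?_⟩
  obtain ⟨D, hD⟩ := exists_derivation k B hB (Function.extend f w 0)
  refine ⟨D.restrictScalars ℤ, fun i => ?_, fun x hx => ?_⟩
  · change D (f i) = w i
    rw [hD, f.injective.extend_apply]
  · have hx' : x ∈ k := Subfield.subset_closure hx
    exact D.map_algebraMap (⟨x, hx'⟩ : k)

end Pool.Agent.H30.HC
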