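import Pool.Agent.H30.HC.Dim

/-!
# The number of generators of the extended ideal
-/

set_option autoImplicit false

namespace Pool.Agent.H30.HC

open MvPolynomial

variable {m : ℕ}

/-- The ideal of the polynomials without constant term. -/
noncomputable def irr (m : ℕ) : Ideal (MvPolynomial (Fin m) ℂ) :=
  Ideal.span (Set.range X)

lemma mem_irr_iff (f : MvPolynomial (Fin m) ℂ) : f ∈ irr m ↔ coeff 0 f = 0 := by
  rw [irr, ← Set.image_univ, mem_ideal_span_X_image]
  constructor
  · intro h
    by_contra h0
    obtain ⟨i, -, hi⟩ := h 0 (mem_support_iff.2 h0)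
    exact hi rfl
  · intro h u hu
    have h1 : u ≠ 0 := by
      rintro rfl
      exact (mem_support_iff.1 hu) h
    obtain ⟨i, hi⟩ := Finsupp.ne_iff.1 h1
    exact ⟨i, Set.mem_univ _, hi⟩

lemma homogeneousComponent_X_mul_succ (j : Fin m) (b : MvPolynomial (Fin m) ℂ) (d : ℕ) :
    homogeneousComponent (d + 1) (X j * b) = X j * homogeneousComponent d b := by
  classical
  ext u
  rw [coeff_homogeneousComponent, coeff_X_mul', coeff_X_mul']
  by_cases hj : j ∈ u.support
  · rw [if_pos hj, if_pos hj, coeff_homogeneousComponent]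
    have h1 : u = Finsupp.single j 1 + (u - Finsupp.single j 1) := by
      rw [add_tsub_cancel_of_le]
      rw [Finsupp.single_le_iff]
      exact Nat.one_le_iff_ne_zero.2 (Finsupp.mem_support_iff.1 hj)
    have h2 : u.degree = 1 + (u - Finsupp.single j 1).degree := by
      conv_lhs => rw [h1]
      rw [map_add, Finsupp.degree_single]
    have h3 : u.degree = d + 1 ↔ (u - Finsupp.single j 1).degree = d := by omega
    simp only [h3]
  · rw [if_neg hj, if_neg hj, ite_self]

lemma homogeneousComponent_zero_X_mul (j : Fin m) (b : MvPolynomial (Fin m) ℂ) :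
    homogeneousComponent 0 (X j * b) = 0 := by
  classical
  rw [homogeneousComponent_zero, coeff_X_mul', if_neg, C_0]
  simp

/-- **Nakayama's lemma for homogeneous ideals.** -/
lemma graded_nakayama (I : Ideal (MvPolynomial (Fin m) ℂ)) (S : Set (MvPolynomial (Fin m) ℂ))
    (hS : ∀ h ∈ S, ∃ d, h.IsHomogeneous d)
    (hgen : ∀ f ∈ I, ∃ g ∈ Submodule.span ℂ S, f - g ∈ irr m * I) :
    I ≤ Ideal.span S := by
  have key : ∀ d : ℕ, ∀ f ∈ I, homogeneousComponent d f ∈ Ideal.span S := by
    intro d
    induction d using Nat.strong_induction_on with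
    | _ d ih =>
      have hB : ∀ u ∈ irr m * I, homogeneousComponent d u ∈ Ideal.span S := by
        intro u hu
        refine Submodule.mul_induction_on hu ?_ ?_
        · intro a ha
          refine Submodule.span_induction (p := fun a _ => ∀ b ∈ I,
            homogeneousComponent d (a * b) ∈ Ideal.span S) ?_ ?_ ?_ ?_ ha
          · rintro _ ⟨j, rfl⟩ b hb
            rcases Nat.eq_zero_or_pos d with hd | hd
            · rw [hd, homogeneousComponent_zero_X_mul]
              exact Ideal.zero_mem _
            · obtain ⟨d', rfl⟩ := Nat.exists_eq_succ_of_ne_zero hd.ne'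
              rw [Nat.succ_eq_add_one, homogeneousComponent_X_mul_succ]
              exact Ideal.mul_mem_left _ _ (ih d' (Nat.lt_succ_self _) b hb)
          · intro b _
            rw [zero_mul, map_zero]
            exact Ideal.zero_mem _
          · intro x y _ _ hx hy b hb
            rw [add_mul, map_add]
            exact Ideal.add_mem _ (hx b hb) (hy b hb)
          · intro c x _ hx b hb
            rw [smul_eq_mul, mul_comm c x, mul_assoc]
            exact hx _ (Ideal.mul_mem_left _ _ hb)
        · intro x y hx hy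
          rw [map_add]
          exact Ideal.add_mem _ hx hy
      intro f hf
      obtain ⟨g, hg, hfg⟩ := hgen f hf
      have h1 : homogeneousComponent d g ∈ Ideal.span S := by
        refine Submodule.span_induction (p := fun g _ => homogeneousComponent d g ∈ Ideal.span S)
          ?_ ?_ ?_ ?_ hg
        · intro h hh
          obtain ⟨k, hk⟩ := hS h hh
          rw [homogeneousComponent_of_mem ((mem_homogeneousSubmodule _ _).2 hk)]
          split_ifs
          · exact Ideal.subset_span hh
          · exact Ideal.zero_mem _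
        · rw [map_zero]; exact Ideal.zero_mem _
        · intro x y _ _ hx hy
          rw [map_add]; exact Ideal.add_mem _ hx hy
        · intro c x _ hx
          rw [map_smul, ← C_mul']
          exact Ideal.mul_mem_left _ _ hx
      have h2 := hB _ hfg
      rw [map_sub] at h2
      have h3 := Ideal.add_mem _ h2 h1
      rwa [sub_add_cancel] at h3
  intro f hf
  rw [← sum_homogeneousComponent f]
  exact Ideal.sum_mem _ fun d _ => key d f hf

/-- The ideal generated by `r` elements. -/
lemma exists_comb {r : ℕ} (F : Fin r → MvPolynomial (Fin m) ℂ) (G : MvPolynomial (Fin m) ℂ)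
    (hG : G ∈ Ideal.span (Set.range F)) :
    ∃ M : Fin r → ℂ, G - ∑ k, M k • F k ∈ irr m * Ideal.span (Set.range F) := by
  obtain ⟨c, hc⟩ := Ideal.mem_span_range_iff_exists_fun.1 hG
  refine ⟨fun k => coeff 0 (c k), ?_⟩
  rw [← hc, ← Finset.sum_sub_distrib]
  apply Ideal.sum_mem
  intro k _
  rw [← C_mul', ← sub_mul]
  apply Ideal.mul_mem_mul
  · rw [mem_irr_iff, coeff_sub, coeff_C, if_pos rfl, sub_self]
  · exact Ideal.subset_span ⟨k, rfl⟩

/-- The component at the monomial one. -/
lemma coeff_zero_part {e : ℕ} (he : 0 < e) (F : MvPolynomial (Fin m) ℂ) :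
    coeff 0 (part e (fun _ => ⟨0, he⟩) F) = coeff 0 F := by
  classical
  induction F using MvPolynomial.induction_on' with
  | add p q hp hq => rw [map_add, coeff_add, coeff_add, hp, hq]
  | monomial u c =>
    rw [part_monomial, coeff_monomial]
    by_cases hu : u = 0
    · subst hu
      have h0 : expDiv e (0 : Fin m →₀ ℕ) = 0 := by
        ext j
        rw [expDiv_apply, Finsupp.zero_apply, Nat.zero_div]
      rw [if_pos (fun j => by simp), if_pos rfl, h0, coeff_monomial, if_pos rfl]
    · rw [if_neg hu]
      split_ifs with h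
      · rw [coeff_monomial, if_neg]
        intro h1
        apply hu
        ext j
        have h2 := DFunLike.congr_fun h1 j
        rw [expDiv_apply, Finsupp.zero_apply] at h2
        have h3 := h j
        rw [Finsupp.zero_apply]
        have h4 := Nat.mod_add_div (u j) e
        rw [h2, h3] at h4
        simpa using h4.symm
      · exact coeff_zero _

lemma part_mem {e : ℕ} (he : 0 < e) (I : Ideal (MvPolynomial (Fin m) ℂ))
    (G : MvPolynomial (Fin m) ℂ) (hG : G ∈ irr m * I.map (expand e (R := ℂ) (σ := Fin m))) :
    part e (fun _ => ⟨0, he⟩) G ∈ irr m * I := by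
  refine Submodule.mul_induction_on hG ?_ ?_
  · intro a ha b hb
    have key : ∀ a ∈ irr m, part e (fun _ => ⟨0, he⟩) (a * b) ∈ irr m * I := by
      refine Submodule.span_induction (p := fun b _ => ∀ a ∈ irr m,
        part e (fun _ => ⟨0, he⟩) (a * b) ∈ irr m * I) ?_ ?_ ?_ ?_ hb
      · rintro _ ⟨h, hh, rfl⟩ a ha
        rw [mul_comm a, part_expand_mul he, mul_comm h]
        refine Ideal.mul_mem_mul ?_ hh
        rw [mem_irr_iff, coeff_zero_part, ← mem_irr_iff]
        exact ha
      · intro a _
        rw [mul_zero, map_zero]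
        exact Ideal.zero_mem _
      · intro x y _ _ hx hy a ha
        rw [mul_add, map_add]
        exact Ideal.add_mem _ (hx a ha) (hy a ha)
      · intro c x _ hx a ha
        rw [smul_eq_mul, ← mul_assoc]
        exact hx _ (Ideal.mul_mem_right _ _ ha)
    exact key a ha
  · intro x y hx hy
    rw [map_add]
    exact Ideal.add_mem _ hx hy

lemma mem_of_expand_mem {e : ℕ} (he : 0 < e) (I : Ideal (MvPolynomial (Fin m) ℂ))
    (h : MvPolynomial (Fin m) ℂ) (hh : expand e h ∈ irr m * I.map (expand e (R := ℂ) (σ := Fin m))) :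
    h ∈ irr m * I := by
  have h1 := part_mem he I _ hh
  rw [← mul_one (expand e h), part_expand_mul he] at h1
  have h2 : part e (fun _ : Fin m => ⟨0, he⟩) (1 : MvPolynomial (Fin m) ℂ) = 1 := by
    have : (1 : MvPolynomial (Fin m) ℂ) = monomial 0 1 := rfl
    have h0 : expDiv e (0 : Fin m →₀ ℕ) = 0 := by
      ext j
      rw [expDiv_apply, Finsupp.zero_apply, Nat.zero_div]
    rw [this, part_monomial, if_pos, h0]
    intro j; simp
  rwa [h2, mul_one] at h1

/-- Linear independence modulo `irr * I`. -/
def LIMod (I : Ideal (MvPolynomial (Fin m) ℂ)) {s : ℕ} (h : Fin s → MvPolynomial (Fin m) ℂ) : Prop :=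
  ∀ c : Fin s → ℂ, ∑ i, c i • h i ∈ irr m * I → c = 0

/-- At most `r` elements are independent. -/
lemma card_le {e r s : ℕ} (he : 0 < e) (I : Ideal (MvPolynomial (Fin m) ℂ))
    (F : Fin r → MvPolynomial (Fin m) ℂ)
    (hF : Ideal.span (Set.range F) = I.map (expand e (R := ℂ) (σ := Fin m)))
    (h : Fin s → MvPolynomial (Fin m) ℂ) (hh : ∀ i, h i ∈ I) (hli : LIMod I h) : s ≤ r := by
  by_contra hcon
  push Not at hcon
  have h1 : ∀ i, ∃ M : Fin r → ℂ,
      expand e (h i) - ∑ k, M k • F k ∈ irr m * Ideal.span (Set.range F) := by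
    intro i
    apply exists_comb
    rw [hF]
    exact Ideal.mem_map_of_mem _ (hh i)
  choose M hM using h1
  have h2 : ¬ LinearIndependent ℂ M := by
    intro hM
    have := hM.fintype_card_le_finrank
    simp at this
    omega
  rw [Fintype.not_linearIndependent_iff] at h2
  obtain ⟨c, hc, i, hi⟩ := h2
  apply hi
  have h3 : c = 0 := by
    apply hli
    apply mem_of_expand_mem he
    rw [← hF, map_sum]
    have h4 : ∑ i, c i • (expand e (h i) - ∑ k, M i k • F k) ∈
        irr m * Ideal.span (Set.range F) := by
      apply Ideal.sum_mem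
      intro i _
      rw [← C_mul']
      exact Ideal.mul_mem_left _ _ (hM i)
    have h5 : ∑ i, c i • ∑ k, M i k • F k = 0 := by
      have h6 : ∀ k, ∑ i, c i * M i k = 0 := by
        intro k
        have := congrFun hc k
        simpa using this
      calc ∑ i, c i • ∑ k, M i k • F k = ∑ i, ∑ k, (c i * M i k) • F k := by
            apply Finset.sum_congr rfl
            intro i _
            rw [Finset.smul_sum]
            apply Finset.sum_congr rfl
            intro k _
            rw [smul_smul]
        _ = ∑ k, (∑ i, c i * M i k) • F k := by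
            rw [Finset.sum_comm]
            apply Finset.sum_congr rfl
            intro k _
            rw [Finset.sum_smul]
        _ = 0 := by
            apply Finset.sum_eq_zero
            intro k _
            rw [h6, zero_smul]
    have h7 : ∑ i, expand e (c i • h i) = ∑ i, c i • (expand e (h i) - ∑ k, M i k • F k) := by
      rw [← add_zero (∑ i, c i • (expand e (h i) - ∑ k, M i k • F k)), ← h5,
        ← Finset.sum_add_distrib]
      apply Finset.sum_congr rfl
      intro i _
      rw [← smul_add, sub_add_cancel, map_smul]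
    rw [h7]
    exact h4
  rw [h3]
  rfl

/-- **Descent of generators.** -/
theorem descent {e r : ℕ} (he : 0 < e) (I : Ideal (MvPolynomial (Fin m) ℂ))
    (hI : ∀ f ∈ I, ∀ d : ℕ, homogeneousComponent d f ∈ I)
    (F : Fin r → MvPolynomial (Fin m) ℂ)
    (hF : Ideal.span (Set.range F) = I.map (expand e (R := ℂ) (σ := Fin m))) :
    ∃ h : Fin r → MvPolynomial (Fin m) ℂ, (∀ i, ∃ d, (h i).IsHomogeneous d) ∧
      Ideal.span (Set.range h) = I := by
  classical
  let A : Set ℕ := {s | ∃ h : Fin s → MvPolynomial (Fin m) ℂ,
    (∀ i, h i ∈ I ∧ ∃ d, (h i).IsHomogeneous d) ∧ LIMod I h}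
  have hA0 : A.Nonempty := ⟨0, Fin.elim0, fun i => i.elim0, fun c _ => Subsingleton.elim _ _⟩
  have hAb : BddAbove A := ⟨r, fun s ⟨h, h1, h2⟩ => card_le he I F hF h (fun i => (h1 i).1) h2⟩
  obtain ⟨h, h1, h2⟩ := Nat.sSup_mem hA0 hAb
  have hs : sSup A ≤ r := card_le he I F hF h (fun i => (h1 i).1) h2
  have hmax : ∀ f ∈ I, (∃ d, f.IsHomogeneous d) →
      ∃ g ∈ Submodule.span ℂ (Set.range h), f - g ∈ irr m * I := by
    intro f hf hfd
    by_contra hcon
    push Not at hcon
    have h3 : sSup A + 1 ∈ A := by
      refine ⟨Fin.cons f h, ?_, ?_⟩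
      · intro i
        refine Fin.cases ?_ ?_ i
        · exact ⟨hf, hfd⟩
        · intro i
          rw [Fin.cons_succ]
          exact h1 i
      · intro c hc
        rw [Fin.sum_univ_succ, Fin.cons_zero] at hc
        simp only [Fin.cons_succ] at hc
        have hc0 : c 0 = 0 := by
          by_contra hc0
          apply hcon (-(c 0)⁻¹ • ∑ i : Fin (sSup A), c i.succ • h i)
          · apply Submodule.smul_mem
            exact Submodule.sum_mem _ fun i _ => Submodule.smul_mem _ _ (Submodule.subset_span ⟨i, rfl⟩)
          · have : f - -(c 0)⁻¹ • ∑ i : Fin (sSup A), c i.succ • h i =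
                C (c 0)⁻¹ * (c 0 • f + ∑ i : Fin (sSup A), c i.succ • h i) := by
              rw [C_mul', smul_add, smul_smul, inv_mul_cancel₀ hc0, one_smul, neg_smul, sub_neg_eq_add]
            rw [this]
            exact Ideal.mul_mem_left _ _ hc
        rw [hc0, zero_smul, zero_add] at hc
        have h4 := h2 _ hc
        funext i
        refine Fin.cases ?_ ?_ i
        · exact hc0
        · intro i
          exact congrFun h4 i
    have h4 := le_csSup hAb h3
    omega
  have hle : I ≤ Ideal.span (Set.range h) := by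
    apply graded_nakayama I (Set.range h)
    · rintro _ ⟨i, rfl⟩
      exact (h1 i).2
    · intro f hf
      have h3 : ∀ d, ∃ g ∈ Submodule.span ℂ (Set.range h), homogeneousComponent d f - g ∈ irr m * I :=
        fun d => hmax _ (hI f hf d) ⟨d, homogeneousComponent_isHomogeneous d f⟩
      choose g hg1 hg2 using h3
      refine ⟨∑ d ∈ Finset.range (f.totalDegree + 1), g d,
        Submodule.sum_mem _ fun d _ => hg1 d, ?_⟩
      have h5 : f - ∑ d ∈ Finset.range (f.totalDegree + 1), g d =
          ∑ d ∈ Finset.range (f.totalDegree + 1), (homogeneousComponent d f - g d) := by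
        rw [Finset.sum_sub_distrib, sum_homogeneousComponent]
      rw [h5]
      exact Ideal.sum_mem _ fun d _ => hg2 d
  refine ⟨fun i => if hi : (i : ℕ) < sSup A then h ⟨i, hi⟩ else 0, ?_, ?_⟩
  · intro i
    by_cases hi : (i : ℕ) < sSup A
    · simp only [dif_pos hi]
      exact (h1 _).2
    · simp only [dif_neg hi]
      exact ⟨0, isHomogeneous_zero _ _ _⟩
  · apply le_antisymm
    · rw [Ideal.span_le]
      rintro _ ⟨i, rfl⟩
      change (if hi : (i : ℕ) < sSup A then h ⟨i, hi⟩ else 0) ∈ I
      split_ifs with hi
      · exact (h1 _).1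
      · exact Ideal.zero_mem _
    · refine hle.trans (Ideal.span_mono ?_)
      rintro _ ⟨i, rfl⟩
      refine ⟨⟨i, i.2.trans_le hs⟩, ?_⟩
      change (if hi : (i : ℕ) < sSup A then h ⟨i, hi⟩ else 0) = h i
      rw [dif_pos i.2]

end Pool.Agent.H30.HC
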