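import Mathlib

/-!
# Powers in a pencil

Let `K` be a finitely generated extension field of `ℂ`, let `s ∈ K` be transcendental and `M ≠ 0`.
If `(s + t) ^ a * M` is an `e`-th power in `K` for infinitely many natural numbers `t`,
then `e` divides `a`.
-/

set_option autoImplicit false

namespace Pool.Agent.H30.HC

open IntermediateField Polynomial

/-- An element of a finite separable extension with only one conjugate is in the base field. -/
lemma mem_bot_of_conj {F K : Type*} [Field F] [Field K] [CharZero F] [Algebra F K]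
    [FiniteDimensional F K] (w : K)
    (h : ∀ σ : K →ₐ[F] AlgebraicClosure K, σ w = algebraMap K (AlgebraicClosure K) w) :
    ∃ x : F, algebraMap F K x = w := by
  have h1 := (Algebra.IsAlgebraic.of_finite F K).range_eval_eq_rootSet_minpoly
    (A := AlgebraicClosure K) w
  have hint : IsIntegral F w := IsIntegral.of_finite F w
  have hsep : (minpoly F w).Separable := (minpoly.irreducible hint).separable
  have h2 : Fintype.card ((minpoly F w).rootSet (AlgebraicClosure K)) = (minpoly F w).natDegree :=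
    Polynomial.card_rootSet_eq_natDegree hsep (IsAlgClosed.splits _)
  have h3 : (minpoly F w).rootSet (AlgebraicClosure K) ⊆
      {algebraMap K (AlgebraicClosure K) w} := by
    rw [← h1]
    rintro _ ⟨σ, rfl⟩
    exact h σ
  have h4 : (minpoly F w).natDegree ≤ 1 := by
    rw [← h2]
    have := Set.card_le_card h3
    simpa using this
  have h5 : (minpoly F w).degree = 1 := by
    have h6 := minpoly.natDegree_pos hint
    exact (Polynomial.degree_eq_iff_natDegree_eq_of_pos one_pos).2 (by omega)
  exact minpoly.mem_range_of_degree_eq_one F w h5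

lemma rootMultiplicity_pow' {L : Type*} [Field L] (p : L[X]) (hp : p ≠ 0) (x : L) (n : ℕ) :
    (p ^ n).rootMultiplicity x = n * p.rootMultiplicity x := by
  induction n with
  | zero => simp
  | succ n ih =>
    rw [pow_succ, rootMultiplicity_mul (mul_ne_zero (pow_ne_zero _ hp) hp), ih]
    ring

/-- In the field of rational functions of one variable. -/
lemma dvd_of_adjoin {L K : Type*} [Field L] [CharZero L] [Field K] [Algebra L K] (s : K)
    (hs : Transcendental L s) {e a t t' : ℕ} (htt : t ≠ t') (w : K) (hw : w ∈ L⟮s⟯)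
    (h : (s + t) ^ a = (s + t') ^ a * w ^ e) : e ∣ a := by
  obtain ⟨p, q, rfl⟩ := (IntermediateField.mem_adjoin_simple_iff L w).1 hw
  have hinj : Function.Injective (aeval (R := L) s) := transcendental_iff_injective.1 hs
  have hne : ∀ t : ℕ, (X + C (t : L) : L[X]) ≠ 0 := fun t => X_add_C_ne_zero _
  have hst : ∀ t : ℕ, aeval s (X + C (t : L) : L[X]) = s + t := by intro t; simp
  rcases Nat.eq_zero_or_pos a with ha | ha
  · simp [ha]
  have hst0 : ∀ t : ℕ, s + t ≠ 0 := fun t h0 => hne t (hinj (by rw [hst, h0, map_zero]))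
  rcases Nat.eq_zero_or_pos e with he | he
  · subst he
    exfalso
    rw [pow_zero, mul_one] at h
    have h1 : (X + C (t : L) : L[X]) ^ a = (X + C (t' : L)) ^ a := by
      apply hinj
      rw [map_pow, map_pow, hst, hst, h]
    have h2 := congrArg (fun f : L[X] => f.eval (-(t : L))) h1
    simp only [eval_pow, eval_add, eval_X, eval_C, neg_add_cancel] at h2
    rw [zero_pow ha.ne'] at h2
    have h3 := (pow_eq_zero_iff ha.ne').1 h2.symm
    apply htt
    have h4 : (t' : L) = t := by linear_combination h3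
    exact_mod_cast h4.symm
  have hq : aeval s q ≠ 0 := by
    intro h0
    rw [h0, div_zero, zero_pow he.ne', mul_zero] at h
    exact hst0 t (pow_eq_zero_iff ha.ne' |>.1 h)
  have hp : aeval s p ≠ 0 := by
    intro h0
    rw [h0, zero_div, zero_pow he.ne', mul_zero] at h
    exact hst0 t (pow_eq_zero_iff ha.ne' |>.1 h)
  have hq0 : q ≠ 0 := by rintro rfl; simp at hq
  have hp0 : p ≠ 0 := by rintro rfl; simp at hp
  have h1 : (X + C (t : L) : L[X]) ^ a * q ^ e = (X + C (t' : L)) ^ a * p ^ e := by
    apply hinj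
    rw [map_mul, map_mul, map_pow, map_pow, map_pow, map_pow, hst, hst, h, div_pow]
    field_simp
  have h2 := congrArg (fun f : L[X] => f.rootMultiplicity (-(t : L))) h1
  have hX : ∀ t : ℕ, (X + C (t : L) : L[X]) ^ a ≠ 0 := fun t => pow_ne_zero _ (hne t)
  rw [rootMultiplicity_mul (mul_ne_zero (hX t) (pow_ne_zero _ hq0)),
    rootMultiplicity_mul (mul_ne_zero (hX t') (pow_ne_zero _ hp0)),
    rootMultiplicity_pow' _ (hne t), rootMultiplicity_pow' _ (hne t'),
    rootMultiplicity_pow' _ hq0, rootMultiplicity_pow' _ hp0] at h2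
  have h3 : (X + C (t : L) : L[X]).rootMultiplicity (-(t : L)) = 1 := by
    have : (X + C (t : L) : L[X]) = X - C (-(t : L)) := by simp
    rw [this, rootMultiplicity_X_sub_C_self]
  have h4 : (X + C (t' : L) : L[X]).rootMultiplicity (-(t : L)) = 0 := by
    apply rootMultiplicity_eq_zero
    intro h0
    rw [IsRoot.def, eval_add, eval_X, eval_C] at h0
    apply htt
    have h4 : (t' : L) = t := by linear_combination h0
    exact_mod_cast h4.symm
  rw [h3, h4, mul_one, mul_zero, zero_add] at h2
  have h5 : e ∣ a + e * q.rootMultiplicity (-(t : L)) := by rw [h2]; exact dvd_mul_right _ _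
  exact (Nat.dvd_add_left (dvd_mul_right _ _)).1 h5

/-- The pencil lemma over a field `L` such that `K` is finite over `L(s)`. -/
lemma pencil_base {L K : Type*} [Field L] [CharZero L] [Field K] [Algebra L K] (s M : K)
    (hs : Transcendental L s) (hfin : FiniteDimensional L⟮s⟯ K) (hM : M ≠ 0) {e a : ℕ}
    (he : 0 < e) {T : Set ℕ} (hT : T.Infinite)
    (h : ∀ t ∈ T, ∃ v : K, (s + t) ^ a * M = v ^ e) : e ∣ a := by
  classical
  have hex : ∀ t : ℕ, ∃ v : K, t ∈ T → (s + t) ^ a * M = v ^ e := by
    intro t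
    by_cases ht : t ∈ T
    · obtain ⟨v, hv⟩ := h t ht
      exact ⟨v, fun _ => hv⟩
    · exact ⟨0, fun h => absurd h ht⟩
  choose v hv using hex
  have hst0 : ∀ t : ℕ, s + t ≠ 0 := by
    intro t h0
    apply hs
    have : s = algebraMap L K (-(t : L)) := by
      rw [map_neg, map_natCast]
      linear_combination h0
    rw [this]
    exact isAlgebraic_algebraMap _
  have hv0 : ∀ t ∈ T, v t ≠ 0 := by
    intro t ht h0
    have h1 := hv t ht
    rw [h0, zero_pow he.ne'] at h1
    exact mul_ne_zero (pow_ne_zero _ (hst0 t)) hM h1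
  let ι : K →+* AlgebraicClosure K := algebraMap K (AlgebraicClosure K)
  let Φ : ℕ → (K →ₐ[L⟮s⟯] AlgebraicClosure K) → AlgebraicClosure K := fun t σ => σ (v t) / ι (v t)
  let S : Set ((K →ₐ[L⟮s⟯] AlgebraicClosure K) → AlgebraicClosure K) :=
    Set.pi Set.univ fun σ => {z | z ^ e = σ M / ι M}
  have hS : S.Finite := by
    apply Set.Finite.pi
    intro σ
    have : {z : AlgebraicClosure K | z ^ e = σ M / ι M} ⊆
        ((Polynomial.nthRoots e (σ M / ι M)).toFinset : Set (AlgebraicClosure K)) := by
      intro z hz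
      simp only [Finset.mem_coe, Multiset.mem_toFinset]
      exact (Polynomial.mem_nthRoots he).2 hz
    exact (Finset.finite_toSet _).subset this
  have hσ : ∀ (σ : K →ₐ[L⟮s⟯] AlgebraicClosure K) (t : ℕ), σ (s + t) = ι (s + t) := by
    intro σ t
    rw [map_add, map_natCast, map_add, map_natCast]
    congr 1
    exact σ.commutes (AdjoinSimple.gen L s)
  have hmaps : Set.MapsTo Φ T S := by
    intro t ht σ _
    change (σ (v t) / ι (v t)) ^ e = σ M / ι M
    have h1 : ι (s + t) ≠ 0 := by
      rw [Ne, map_eq_zero]; exact hst0 t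
    have h2 : ι M ≠ 0 := by rw [Ne, map_eq_zero]; exact hM
    rw [div_pow, ← map_pow, ← map_pow, ← hv t ht, map_mul, map_mul, map_pow, map_pow, hσ σ t,
      mul_div_mul_left _ _ (pow_ne_zero _ h1)]
  obtain ⟨t, ht, t', ht', htt, heq⟩ := hT.exists_ne_map_eq_of_mapsTo hmaps hS
  have hw : ∃ x : L⟮s⟯, algebraMap L⟮s⟯ K x = v t / v t' := by
    apply mem_bot_of_conj
    intro σ
    have h1 := congrFun heq σ
    have h2 : ι (v t) ≠ 0 := by rw [Ne, map_eq_zero]; exact hv0 t ht
    have h3 : ι (v t') ≠ 0 := by rw [Ne, map_eq_zero]; exact hv0 t' ht'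
    have h4 : σ (v t') ≠ 0 := by rw [Ne, map_eq_zero]; exact hv0 t' ht'
    change σ (v t) / ι (v t) = σ (v t') / ι (v t') at h1
    change σ (v t / v t') = ι (v t / v t')
    rw [map_div₀, map_div₀, div_eq_div_iff h4 h3]
    rw [div_eq_div_iff h2 h3] at h1
    linear_combination h1
  obtain ⟨x, hx⟩ := hw
  refine dvd_of_adjoin s hs htt (v t / v t') ?_ (e := e) ?_
  · rw [← hx]; exact x.2
  · have h1 := hv t ht
    have h2 := hv t' ht'
    have h3 := hv0 t' ht'
    have h4 : (s + (t' : K)) ^ a ≠ 0 := pow_ne_zero _ (hst0 t')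
    rw [div_pow, ← h1, ← h2, mul_div_mul_right _ _ hM, mul_div_cancel₀ _ h4]

open scoped IntermediateField.algebraAdjoinAdjoin in
/-- **The pencil lemma.** -/
theorem pencil {K : Type} [Field K] [Algebra ℂ K] [Algebra.EssFiniteType ℂ K] (s M : K)
    (hs : Transcendental ℂ s) (hM : M ≠ 0) {e a : ℕ} (he : 0 < e) {T : Set ℕ} (hT : T.Infinite)
    (h : ∀ t ∈ T, ∃ v : K, (s + t) ^ a * M = v ^ e) : e ∣ a := by
  have h0 : AlgebraicIndepOn ℂ id ({s} : Set K) := by
    rw [AlgebraicIndepOn, algebraicIndependent_singleton_iff ⟨s, rfl⟩]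
    exact hs
  obtain ⟨B, hB, hBt⟩ := exists_isTranscendenceBasis_superset h0
  have hsB : s ∈ B := hB rfl
  have hsL : Transcendental (IntermediateField.adjoin ℂ (B \ {s})) s := by
    have h1 : Transcendental (Algebra.adjoin ℂ (((↑) : B → K) '' {x | x.1 ≠ s}))
        (((↑) : B → K) ⟨s, hsB⟩) :=
      (hBt.1.transcendental_adjoin_iff (s := {x : B | x.1 ≠ s}) (i := ⟨s, hsB⟩)).2 (by simp)
    have h2 : (((↑) : B → K) '' {x | x.1 ≠ s}) = B \ {s} := by
      ext x
      simp only [Set.mem_image, Set.mem_ofPred_eq, Subtype.exists, exists_and_right, exists_eq_right,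
        Set.mem_sdiff, Set.mem_singleton_iff]
      tauto
    rw [h2] at h1
    intro h3
    apply h1
    exact (IsFractionRing.isAlgebraic_iff (Algebra.adjoin ℂ (B \ {s}))
      (IntermediateField.adjoin ℂ (B \ {s})) K).2 h3
  have halg : Algebra.IsAlgebraic (IntermediateField.adjoin ℂ B) K := by
    have := hBt.isAlgebraic_field
    rwa [Subtype.range_coe] at this
  have hle : IntermediateField.adjoin ℂ B ≤
      ((IntermediateField.adjoin ℂ (B \ {s}))⟮s⟯).restrictScalars ℂ := by
    rw [IntermediateField.adjoin_le_iff]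
    intro x hx
    by_cases hxs : x = s
    · rw [hxs]
      exact IntermediateField.mem_adjoin_simple_self _ s
    · have h1 : x ∈ IntermediateField.adjoin ℂ (B \ {s}) :=
        IntermediateField.subset_adjoin _ _ ⟨hx, hxs⟩
      exact ((IntermediateField.adjoin ℂ (B \ {s}))⟮s⟯).algebraMap_mem ⟨x, h1⟩
  have halg2 : Algebra.IsAlgebraic (IntermediateField.adjoin ℂ (B \ {s}))⟮s⟯ K := by
    let A1 : Algebra (IntermediateField.adjoin ℂ B)
        (((IntermediateField.adjoin ℂ (B \ {s}))⟮s⟯).restrictScalars ℂ) :=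
      (IntermediateField.inclusion hle).toAlgebra
    have A2 : IsScalarTower (IntermediateField.adjoin ℂ B)
        (((IntermediateField.adjoin ℂ (B \ {s}))⟮s⟯).restrictScalars ℂ) K :=
      IsScalarTower.of_algebraMap_eq (congrFun rfl)
    have A3 : Algebra.IsAlgebraic (((IntermediateField.adjoin ℂ (B \ {s}))⟮s⟯).restrictScalars ℂ) K :=
      Algebra.IsAlgebraic.tower_top (K := IntermediateField.adjoin ℂ B) _
    exact A3
  have hst : IsScalarTower ℂ (IntermediateField.adjoin ℂ (B \ {s}))⟮s⟯ K :=
    IsScalarTower.of_algebraMap_eq (congrFun rfl)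
  have hess : Algebra.EssFiniteType (IntermediateField.adjoin ℂ (B \ {s}))⟮s⟯ K :=
    Algebra.EssFiniteType.of_comp ℂ _ _
  have hfin : FiniteDimensional (IntermediateField.adjoin ℂ (B \ {s}))⟮s⟯ K :=
    Algebra.finite_of_essFiniteType_of_isAlgebraic
  have : CharZero (IntermediateField.adjoin ℂ (B \ {s})) := inferInstance
  exact pencil_base s M hsL hfin hM he hT h

end Pool.Agent.H30.HC
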