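import Pool.Agent.H30.HC.Gens
import Pool.Agent.H30.HC.Pencil
import Pool.Agent.H30.HC.Flex

/-!
# The Jacobian criterion for the extended ideal in generic coordinates
-/

set_option autoImplicit false

namespace Pool.Agent.H30.HC

open MvPolynomial

variable {m : ℕ}

/-- The chain rule for a derivation of `ℂ`. -/
lemma derivation_eval (D : Derivation ℤ ℂ ℂ) (x : Fin m → ℂ) (h : MvPolynomial (Fin m) ℂ) :
    ∃ h' : MvPolynomial (Fin m) ℂ, (∀ u, coeff u h' = D (coeff u h)) ∧
      D (eval x h) = eval x h' + ∑ i, eval x (pderiv i h) * D (x i) := by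
  classical
  induction h using MvPolynomial.induction_on with
  | C a =>
    refine ⟨C (D a), fun u => ?_, ?_⟩
    · rw [coeff_C, coeff_C]
      split_ifs
      · rfl
      · rw [map_zero]
    · simp
  | add p q hp hq =>
    obtain ⟨p', hp1, hp2⟩ := hp
    obtain ⟨q', hq1, hq2⟩ := hq
    refine ⟨p' + q', fun u => ?_, ?_⟩
    · rw [coeff_add, coeff_add, map_add, hp1, hq1]
    · rw [map_add, map_add, hp2, hq2, map_add]
      simp only [map_add, add_mul, Finset.sum_add_distrib]
      ring
  | mul_X p n hp =>
    obtain ⟨p', hp1, hp2⟩ := hp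
    refine ⟨p' * X n, fun u => ?_, ?_⟩
    · rw [coeff_mul_X', coeff_mul_X']
      split_ifs
      · exact hp1 _
      · rw [map_zero]
    · rw [map_mul, eval_X, Derivation.leibniz, hp2, map_mul, eval_X]
      have h1 : ∀ i, eval x (pderiv i (p * X n)) * D (x i) =
          x n * (eval x (pderiv i p) * D (x i)) + (if n = i then eval x p * D (x i) else 0) := by
        intro i
        rw [pderiv_mul, map_add, map_mul, map_mul, eval_X]
        by_cases hi : n = i
        · subst hi
          rw [pderiv_X_self, map_one, if_pos rfl]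
          ring
        · rw [pderiv_X_of_ne hi, map_zero, if_neg hi]
          ring
      simp only [h1, Finset.sum_add_distrib, ← Finset.mul_sum, Finset.sum_ite_eq, Finset.mem_univ,
        if_true, smul_eq_mul]
      ring

/-- A derivation that is zero on the coefficients of generators gives a tangent vector. -/
lemma tangent (D : Derivation ℤ ℂ ℂ) (S : Set (MvPolynomial (Fin m) ℂ))
    (hD : ∀ h ∈ S, ∀ u, D (coeff u h) = 0) (x : Fin m → ℂ)
    (hx : ∀ f ∈ Ideal.span S, eval x f = 0) :
    ∀ f ∈ Ideal.span S, ∑ i, eval x (pderiv i f) * D (x i) = 0 := by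
  intro f hf
  have key : ∀ f ∈ Ideal.span S, eval x f = 0 ∧ ∑ i, eval x (pderiv i f) * D (x i) = 0 := by
    intro f hf
    refine Submodule.span_induction (p := fun f _ => eval x f = 0 ∧
      ∑ i, eval x (pderiv i f) * D (x i) = 0) ?_ ?_ ?_ ?_ hf
    · intro h hh
      obtain ⟨h', h1, h2⟩ := derivation_eval D x h
      have h3 : h' = 0 := by
        ext u
        rw [h1, hD h hh, coeff_zero]
      have h4 := hx h (Ideal.subset_span hh)
      rw [h4, map_zero, h3, map_zero, zero_add] at h2
      exact ⟨h4, h2.symm⟩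
    · simp
    · rintro f g _ _ ⟨hf1, hf2⟩ ⟨hg1, hg2⟩
      refine ⟨by rw [map_add, hf1, hg1, add_zero], ?_⟩
      simp only [map_add, add_mul, Finset.sum_add_distrib, hf2, hg2, add_zero]
    · rintro a f _ ⟨hf1, hf2⟩
      refine ⟨by rw [smul_eq_mul, map_mul, hf1, mul_zero], ?_⟩
      have h1 : ∀ i, eval x (pderiv i (a • f)) * D (x i) =
          eval x a * (eval x (pderiv i f) * D (x i)) := by
        intro i
        rw [smul_eq_mul, pderiv_mul, map_add, map_mul, map_mul, hf1, mul_zero, zero_add]
        ring
      simp only [h1, ← Finset.mul_sum, hf2, mul_zero]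
  exact (key f hf).2

/-- The substitution `x_i ↦ ∑ g i j x_j`. -/
noncomputable def lin (g : Matrix (Fin m) (Fin m) ℂ) :
    MvPolynomial (Fin m) ℂ →ₐ[ℂ] MvPolynomial (Fin m) ℂ :=
  aeval fun i => ∑ j, C (g i j) * X j

lemma eval_lin (g : Matrix (Fin m) (Fin m) ℂ) (x : Fin m → ℂ) (f : MvPolynomial (Fin m) ℂ) :
    eval x (lin g f) = eval (g.mulVec x) f := by
  have h1 : (aeval x : MvPolynomial (Fin m) ℂ →ₐ[ℂ] ℂ).comp (lin g) = aeval (g.mulVec x) := by
    apply MvPolynomial.algHom_ext
    intro i
    rw [AlgHom.comp_apply, lin, aeval_X, aeval_X, map_sum]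
    simp [Matrix.mulVec, dotProduct]
  have h2 := DFunLike.congr_fun h1 f
  rw [AlgHom.comp_apply] at h2
  simpa [MvPolynomial.coe_aeval_eq_eval] using h2

lemma lin_lin (g h : Matrix (Fin m) (Fin m) ℂ) (hgh : g * h = 1) (f : MvPolynomial (Fin m) ℂ) :
    lin h (lin g f) = f := by
  have h1 : (lin h).comp (lin g) = AlgHom.id ℂ _ := by
    apply MvPolynomial.algHom_ext
    intro i
    rw [AlgHom.comp_apply, AlgHom.id_apply]
    conv_lhs => rw [lin, lin, aeval_X]
    rw [map_sum]
    have h2 : ∀ k, ∑ j, g i j * h j k = (1 : Matrix (Fin m) (Fin m) ℂ) i k := by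
      intro k
      rw [← hgh, Matrix.mul_apply]
    calc ∑ j, (aeval fun i => ∑ j, C (h i j) * X j) (C (g i j) * X j)
        = ∑ j, ∑ k, C (g i j * h j k) * X k := by
          apply Finset.sum_congr rfl
          intro j _
          rw [map_mul, aeval_X, aeval_C, algebraMap_eq, Finset.mul_sum]
          apply Finset.sum_congr rfl
          intro k _
          rw [C_mul]
          ring
      _ = ∑ k, C ((1 : Matrix (Fin m) (Fin m) ℂ) i k) * X k := by
          rw [Finset.sum_comm]
          apply Finset.sum_congr rfl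
          intro k _
          rw [← h2, map_sum, Finset.sum_mul]
      _ = X i := by
          rw [Finset.sum_eq_single i]
          · rw [Matrix.one_apply_eq, C_1, one_mul]
          · intro k _ hk
            rw [Matrix.one_apply_ne hk.symm, C_0, zero_mul]
          · intro h; exact absurd (Finset.mem_univ _) h
  exact DFunLike.congr_fun h1 f

/-- The gradient of a polynomial composed with a linear map and the `e`-th powers. -/
lemma eval_pderiv_expand_lin {e : ℕ} (g : Matrix (Fin m) (Fin m) ℂ) (p : Fin m → ℂ)
    (f : MvPolynomial (Fin m) ℂ) (j : Fin m) :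
    eval p (pderiv j (expand e (lin g f))) =
      (∑ i, eval (g.mulVec (p ^ e)) (pderiv i f) * g i j) * (e * p j ^ (e - 1)) := by
  induction f using MvPolynomial.induction_on with
  | C a => 
    have h1 : lin g (C a) = C a := by rw [lin, aeval_C]; rfl
    rw [h1, expand_C, pderiv_C, map_zero]
    simp
  | add p q hp hq => 
    rw [map_add, map_add, map_add, map_add, hp, hq]
    simp only [map_add, add_mul, Finset.sum_add_distrib]
  | mul_X q n hq =>
    have h1 : lin g (X n) = ∑ k, C (g n k) * X k := by rw [lin, aeval_X]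
    have h2 : eval p (pderiv j (expand e (lin g (X n)))) = g n j * (e * p j ^ (e - 1)) := by
      rw [h1, map_sum, map_sum, map_sum, Finset.sum_eq_single j]
      · rw [map_mul, expand_C, expand_X, pderiv_C_mul, pderiv_pow, pderiv_X_self]
        simp
      · intro k _ hk
        rw [map_mul, expand_C, expand_X, pderiv_C_mul, pderiv_pow, pderiv_X_of_ne hk]
        simp
      · intro h; exact absurd (Finset.mem_univ _) h
    have h3 : eval p (expand e (lin g (X n))) = (g.mulVec (p ^ e)) n := by
      rw [eval_expand, eval_lin, eval_X]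
    have h4 : eval p (expand e (lin g q)) = eval (g.mulVec (p ^ e)) q := by
      rw [eval_expand, eval_lin]
    rw [map_mul, map_mul, pderiv_mul, map_add, map_mul, map_mul, hq, h2, h3, h4]
    have h5 : ∀ i, eval (g.mulVec (p ^ e)) (pderiv i (q * X n)) * g i j =
        (g.mulVec (p ^ e)) n * (eval (g.mulVec (p ^ e)) (pderiv i q) * g i j) +
          (if n = i then eval (g.mulVec (p ^ e)) q * g i j else 0) := by
      intro i
      rw [pderiv_mul, map_add, map_mul, map_mul, eval_X]
      by_cases hi : n = i
      · subst hi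
        rw [pderiv_X_self, map_one, if_pos rfl]
        ring
      · rw [pderiv_X_of_ne hi, map_zero, if_neg hi]
        ring
    simp only [h5, Finset.sum_add_distrib, ← Finset.mul_sum, Finset.sum_ite_eq, Finset.mem_univ,
      if_true]
    ring

/-- **The Jacobian criterion for the extended ideal.** -/
theorem jacobian {r e : ℕ} (he : 0 < e) (S : Set (MvPolynomial (Fin m) ℂ))
    (g g' : Matrix (Fin m) (Fin m) ℂ) (hgg : g * g' = 1)
    (flex : ∀ w : Fin m → Fin m → ℂ, ∃ D : Derivation ℤ ℂ ℂ, (∀ i j, D (g i j) = w i j) ∧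
      ∀ h ∈ S, ∀ u, D (coeff u h) = 0)
    (hJ : ∀ x : Fin m → ℂ, x ≠ 0 → (∀ f ∈ Ideal.span S, eval x f = 0) →
      ∃ f : Fin r → MvPolynomial (Fin m) ℂ, (∀ k, f k ∈ Ideal.span S) ∧
        LinearIndependent ℂ (fun k : Fin r => fun j : Fin m => eval x (pderiv j (f k)))) :
    ∀ p : Fin m → ℂ, p ≠ 0 →
      (∀ F ∈ ((Ideal.span S).comap (lin g)).map (expand e (R := ℂ) (σ := Fin m)), eval p F = 0) →
      ∃ G : Fin r → MvPolynomial (Fin m) ℂ,
        (∀ k, G k ∈ ((Ideal.span S).comap (lin g)).map (expand e (R := ℂ) (σ := Fin m))) ∧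
        LinearIndependent ℂ (fun k : Fin r => fun j : Fin m => eval p (pderiv j (G k))) := by
  intro p hp hpJ
  have hgg' : g' * g = 1 := mul_eq_one_comm.1 hgg
  set y : Fin m → ℂ := p ^ e with hy
  set x : Fin m → ℂ := g'.mulVec y with hx
  have hgx : g.mulVec x = y := by
    rw [hx, Matrix.mulVec_mulVec, hgg, Matrix.one_mulVec]
  have hy0 : y ≠ 0 := by
    intro h
    apply hp
    funext j
    have := congrFun h j
    rw [hy, Pi.pow_apply, Pi.zero_apply] at this
    exact pow_eq_zero_iff he.ne' |>.1 this
  have hx0 : x ≠ 0 := by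
    intro h
    apply hy0
    rw [← hgx, h, Matrix.mulVec_zero]
  have hmem : ∀ f ∈ Ideal.span S, expand e (lin g' f) ∈
      ((Ideal.span S).comap (lin g)).map (expand e (R := ℂ) (σ := Fin m)) := by
    intro f hf
    apply Ideal.mem_map_of_mem
    rw [Ideal.mem_comap, lin_lin g' g hgg']
    exact hf
  have hxV : ∀ f ∈ Ideal.span S, eval x f = 0 := by
    intro f hf
    have := hpJ _ (hmem f hf)
    rwa [eval_expand, eval_lin] at this
  obtain ⟨f, hf, hli⟩ := hJ x hx0 hxV
  refine ⟨fun k => expand e (lin g' (f k)), fun k => hmem _ (hf k), ?_⟩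
  rw [Fintype.linearIndependent_iff] at hli ⊢
  intro c hc
  apply hli
  -- the covector
  let lam : Fin m → ℂ := fun i => ∑ k, c k * eval x (pderiv i (f k))
  let mu : Fin m → ℂ := fun j => ∑ i, lam i * g' i j
  have hmu : ∀ j, mu j * (e * p j ^ (e - 1)) = 0 := by
    intro j
    have h1 := congrFun hc j
    rw [Finset.sum_apply, Pi.zero_apply] at h1
    rw [← h1]
    simp only [Pi.smul_apply, smul_eq_mul, eval_pderiv_expand_lin, mu, lam]
    rw [Finset.sum_mul, ← hy, ← hx]
    simp only [Finset.sum_mul, Finset.mul_sum]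
    rw [Finset.sum_comm]
    apply Finset.sum_congr rfl
    intro k _
    apply Finset.sum_congr rfl
    intro i _
    ring
  have hlam : ∀ i, lam i = ∑ j, mu j * g j i := by
    intro i
    have h1 : Matrix.vecMul mu g = lam := by
      have h2 : mu = Matrix.vecMul lam g' := by
        funext j
        rfl
      rw [h2, Matrix.vecMul_vecMul, hgg', Matrix.vecMul_one]
    rw [← h1]
    rfl
  -- mu = 0
  have hmu0 : ∀ i, mu i = 0 := by
    intro i0
    obtain ⟨j0, hj0⟩ := Function.ne_iff.1 hx0
    rw [Pi.zero_apply] at hj0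
    obtain ⟨D, hD1, hD2⟩ := flex (fun i j => if i = i0 ∧ j = j0 then (x j0)⁻¹ else 0)
    have h1 : ∀ i, D (y i) = (if i = i0 then 1 else 0) + ∑ j, g i j * D (x j) := by
      intro i
      have h2 : y i = ∑ j, g i j * x j := by rw [← hgx]; rfl
      rw [h2, map_sum]
      simp only [Derivation.leibniz, smul_eq_mul, hD1]
      rw [Finset.sum_add_distrib, add_comm]
      congr 1
      by_cases hi : i = i0
      · subst hi
        simp only [true_and, if_true]
        rw [Finset.sum_eq_single j0]
        · rw [if_pos rfl, mul_inv_cancel₀ hj0]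
        · intro j _ hj
          rw [if_neg hj, mul_zero]
        · intro h; exact absurd (Finset.mem_univ _) h
      · simp [hi]
    have h2 : ∀ i, D (y i) = (e * p i ^ (e - 1)) * D (p i) := by
      intro i
      rw [hy, Pi.pow_apply, Derivation.leibniz_pow]
      simp only [nsmul_eq_mul, smul_eq_mul]
      ring
    have h3 : ∑ i, mu i * D (y i) = 0 := by
      apply Finset.sum_eq_zero
      intro i _
      rw [h2, ← mul_assoc, hmu, zero_mul]
    have h4 : ∑ i, mu i * ∑ j, g i j * D (x j) = 0 := by
      have h5 : ∑ i, mu i * ∑ j, g i j * D (x j) = ∑ k, c k * ∑ j, eval x (pderiv j (f k)) * D (x j) := by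
        calc ∑ i, mu i * ∑ j, g i j * D (x j) = ∑ j, lam j * D (x j) := by
              simp only [hlam, Finset.mul_sum, Finset.sum_mul]
              rw [Finset.sum_comm]
              apply Finset.sum_congr rfl
              intro j _
              apply Finset.sum_congr rfl
              intro i _
              ring
          _ = _ := by
              simp only [lam, Finset.mul_sum, Finset.sum_mul]
              rw [Finset.sum_comm]
              apply Finset.sum_congr rfl
              intro j _
              apply Finset.sum_congr rfl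
              intro i _
              ring
      rw [h5]
      apply Finset.sum_eq_zero
      intro k _
      rw [tangent D S hD2 x hxV (f k) (hf k), mul_zero]
    simp only [h1, mul_add, Finset.sum_add_distrib, h4, add_zero] at h3
    simpa using h3
  funext i
  rw [Finset.sum_apply, Pi.zero_apply]
  have h5 : lam i = 0 := by
    rw [hlam]
    apply Finset.sum_eq_zero
    intro j _
    rw [hmu0, zero_mul]
  rw [← h5]
  apply Finset.sum_congr rfl
  intro k _
  rfl

end Pool.Agent.H30.HC
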