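import Mathlib

/-!
# Linear independence of radicals

Let `K` be an extension field of `ℂ`, and let `ℓ j ∈ K` be nonzero elements such that a product
`∏ ℓ j ^ a j` is an `e`-th power only if `e` divides all the `a j`. Then the products of the powers
with exponents less than `e` of the `e`-th roots of the `ℓ j` are linearly independent over `K`.
-/

set_option autoImplicit false

namespace Pool.Agent.H30.HC

variable {K : Type} [Field K] [Algebra ℂ K]

/-- Roots of unity are fixed. -/
lemma fixed_of_pow_eq_one {e : ℕ} (he : 0 < e) (z : AlgebraicClosure K) (hz : z ^ e = 1)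
    (σ : AlgebraicClosure K ≃ₐ[K] AlgebraicClosure K) : σ z = z := by
  have h1 : IsPrimitiveRoot (algebraMap K (AlgebraicClosure K)
      (algebraMap ℂ K (Complex.exp (2 * Real.pi * Complex.I / e)))) e :=
    ((Complex.isPrimitiveRoot_exp e he.ne').map_of_injective (algebraMap ℂ K).injective).map_of_injective
      (algebraMap K (AlgebraicClosure K)).injective
  have : NeZero e := ⟨he.ne'⟩
  obtain ⟨i, -, hi⟩ := h1.eq_pow_of_pow_eq_one hz
  rw [← hi, map_pow, AlgEquiv.commutes]

/-- The character of an `e`-th root. -/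
noncomputable def chi {m e : ℕ} (he : 0 < e) (ξ : Fin m → AlgebraicClosure K) (ℓ : Fin m → K)
    (hℓ : ∀ j, ℓ j ≠ 0) (hξ : ∀ j, ξ j ^ e = algebraMap K (AlgebraicClosure K) (ℓ j))
    (a : Fin m → ℕ) :
    (AlgebraicClosure K ≃ₐ[K] AlgebraicClosure K) →* AlgebraicClosure K where
  toFun σ := ∏ j, (σ (ξ j) / ξ j) ^ a j
  map_one' := by
    apply Finset.prod_eq_one
    intro j _
    have h0 : ξ j ≠ 0 := by
      intro h
      have := hξ j
      rw [h, zero_pow he.ne'] at this
      exact hℓ j ((map_eq_zero _).1 this.symm)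
    rw [AlgEquiv.one_apply, div_self h0, one_pow]
  map_mul' := by
    intro σ τ
    rw [← Finset.prod_mul_distrib]
    apply Finset.prod_congr rfl
    intro j _
    have h0 : ξ j ≠ 0 := by
      intro h
      have := hξ j
      rw [h, zero_pow he.ne'] at this
      exact hℓ j ((map_eq_zero _).1 this.symm)
    have h1 : ∀ ρ : AlgebraicClosure K ≃ₐ[K] AlgebraicClosure K, (ρ (ξ j) / ξ j) ^ e = 1 := by
      intro ρ
      rw [div_pow, ← map_pow, hξ, AlgEquiv.commutes, div_self]
      rw [Ne, map_eq_zero]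
      exact hℓ j
    have h2 := fixed_of_pow_eq_one he _ (h1 τ) σ
    rw [map_div₀] at h2
    have h3 : σ (ξ j) ≠ 0 := by rw [Ne, map_eq_zero]; exact h0
    rw [← mul_pow, AlgEquiv.mul_apply]
    congr 1
    rw [← h2]
    field_simp

/-- **Linear independence of radicals.** -/
theorem kummer_linearIndependent {m e : ℕ} (he : 0 < e) (ℓ : Fin m → K) (hℓ : ∀ j, ℓ j ≠ 0)
    (hK : ∀ a : Fin m → ℕ, (∃ w : K, ∏ j, ℓ j ^ a j = w ^ e) → ∀ j, e ∣ a j)
    (ξ : Fin m → AlgebraicClosure K)
    (hξ : ∀ j, ξ j ^ e = algebraMap K (AlgebraicClosure K) (ℓ j)) :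
    LinearIndependent K (fun a : Fin m → Fin e => ∏ j, ξ j ^ (a j : ℕ)) := by
  classical
  have : CharZero K := charZero_of_injective_algebraMap (algebraMap ℂ K).injective
  have h0 : ∀ j, ξ j ≠ 0 := by
    intro j h
    have := hξ j
    rw [h, zero_pow he.ne'] at this
    exact hℓ j ((map_eq_zero _).1 this.symm)
  have hne : ∀ a : Fin m → ℕ, ∏ j, ξ j ^ a j ≠ 0 := fun a =>
    Finset.prod_ne_zero_iff.2 fun j _ => pow_ne_zero _ (h0 j)
  have hchi : ∀ (a : Fin m → ℕ) (σ : AlgebraicClosure K ≃ₐ[K] AlgebraicClosure K),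
      chi he ξ ℓ hℓ hξ a σ = σ (∏ j, ξ j ^ a j) / ∏ j, ξ j ^ a j := by
    intro a σ
    change ∏ j, (σ (ξ j) / ξ j) ^ a j = _
    rw [map_prod, ← Finset.prod_div_distrib]
    apply Finset.prod_congr rfl
    intro j _
    rw [div_pow, map_pow]
  have hinj : Function.Injective (fun a : Fin m → Fin e => chi he ξ ℓ hℓ hξ (fun j => (a j : ℕ))) := by
    intro a b hab
    have h1 : ∀ σ : AlgebraicClosure K ≃ₐ[K] AlgebraicClosure K,
        σ ((∏ j, ξ j ^ (a j : ℕ)) / ∏ j, ξ j ^ (b j : ℕ)) =
          (∏ j, ξ j ^ (a j : ℕ)) / ∏ j, ξ j ^ (b j : ℕ) := by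
      intro σ
      have h2 := DFunLike.congr_fun hab σ
      simp only at h2
      rw [hchi, hchi] at h2
      have h3 : σ (∏ j, ξ j ^ (b j : ℕ)) ≠ 0 := by rw [Ne, map_eq_zero]; exact hne _
      rw [div_eq_div_iff (hne _) (hne _)] at h2
      rw [map_div₀, div_eq_div_iff h3 (hne _)]
      linear_combination h2
    obtain ⟨w, hw⟩ := (InfiniteGalois.mem_range_algebraMap_iff_fixed _).2 h1
    have h2 : ∏ j, ℓ j ^ ((a j : ℕ) + (e - b j)) = (w * ∏ j, ℓ j) ^ e := by
      apply (algebraMap K (AlgebraicClosure K)).injective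
      rw [map_pow, map_mul, hw, map_prod, map_prod, mul_pow, div_pow, ← Finset.prod_pow,
        ← Finset.prod_pow, ← Finset.prod_pow, div_mul_eq_mul_div, eq_div_iff
        (Finset.prod_ne_zero_iff.2 fun j _ => pow_ne_zero _ (pow_ne_zero _ (h0 j))),
        ← Finset.prod_mul_distrib, ← Finset.prod_mul_distrib]
      apply Finset.prod_congr rfl
      intro j _
      rw [map_pow, ← hξ j]
      have hb : (b j : ℕ) ≤ e := (b j).2.le
      rw [← pow_mul, ← pow_mul, ← pow_add, ← pow_mul, ← pow_mul, ← pow_add]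
      congr 1
      have : (e * (e - (b j : ℕ))) + b j * e = e * e := by
        rw [mul_comm (b j : ℕ) e, ← mul_add]
        congr 1
        omega
      rw [mul_add, mul_comm e (a j : ℕ), add_assoc, this]
    have h3 := hK _ ⟨_, h2⟩
    funext j
    apply Fin.ext
    have h4 := h3 j
    have ha := (a j).2
    have hb := (b j).2
    obtain ⟨c, hc⟩ := h4
    have h5 : (a j : ℕ) + (e - b j) = e := by
      have h6 : (a j : ℕ) + (e - b j) < 2 * e := by omega
      have h7 : 0 < (a j : ℕ) + (e - b j) := by omega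
      rw [hc] at h6 h7 ⊢
      have h8 : c < 2 := by
        by_contra hcon
        push Not at hcon
        have := Nat.mul_le_mul_left e hcon
        omega
      have h9 : 0 < c := Nat.pos_of_mul_pos_left h7
      have : c = 1 := by omega
      rw [this, mul_one]
    omega
  rw [Fintype.linearIndependent_iff]
  intro c hc a
  have h1 := (linearIndependent_monoidHom (AlgebraicClosure K ≃ₐ[K] AlgebraicClosure K)
    (AlgebraicClosure K)).comp _ hinj
  rw [Fintype.linearIndependent_iff] at h1
  have h2 := h1 (fun a => c a • ∏ j, ξ j ^ (a j : ℕ)) (by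
    funext σ
    rw [Finset.sum_apply, Pi.zero_apply]
    have h3 := congrArg σ hc
    rw [map_sum, map_zero] at h3
    rw [← h3]
    apply Finset.sum_congr rfl
    intro a _
    change (c a • ∏ j, ξ j ^ (a j : ℕ)) * chi he ξ ℓ hℓ hξ (fun j => (a j : ℕ)) σ = _
    rw [hchi, Algebra.smul_def, map_mul, AlgEquiv.commutes, mul_assoc,
      mul_div_cancel₀ _ (hne _)]) a
  rcases smul_eq_zero.1 h2 with h3 | h3
  · exact h3
  · exact absurd h3 (hne _)

end Pool.Agent.H30.HC
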