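import Pool.Agent.H30.HC.Jac

/-!
# Generic coordinates are independent modulo `e`-th powers
-/

set_option autoImplicit false

namespace Pool.Agent.H30.HC

open MvPolynomial

variable {m : ℕ}

/-- The linear form with the coefficients `v`. -/
noncomputable def form (v : Fin m → ℂ) : MvPolynomial (Fin m) ℂ := ∑ j, C (v j) * X j

lemma form_add (v w : Fin m → ℂ) : form (v + w) = form v + form w := by
  simp only [form, Pi.add_apply, C_add, add_mul, Finset.sum_add_distrib]

lemma form_sub (v w : Fin m → ℂ) : form (v - w) = form v - form w := by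
  simp only [form, Pi.sub_apply, C_sub, sub_mul, Finset.sum_sub_distrib]

lemma form_smul (c : ℂ) (v : Fin m → ℂ) : form (c • v) = C c * form v := by
  simp only [form, Pi.smul_apply, smul_eq_mul, C_mul, Finset.mul_sum, mul_assoc]

lemma coeff_form (v : Fin m → ℂ) (D : Derivation ℤ ℂ ℂ) (u : Fin m →₀ ℕ) :
    coeff u (form (fun j => D (v j))) = D (coeff u (form v)) := by
  classical
  rw [form, form, coeff_sum, coeff_sum, map_sum]
  apply Finset.sum_congr rfl
  intro j _
  rw [coeff_C_mul, coeff_C_mul, coeff_X]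
  split_ifs <;> simp

/-- A derivation that is zero on the coefficients of generators preserves the ideal. -/
lemma derivation_mem (D : Derivation ℤ ℂ ℂ) (S : Set (MvPolynomial (Fin m) ℂ))
    (hD : ∀ h ∈ S, ∀ u, D (coeff u h) = 0) (f f' : MvPolynomial (Fin m) ℂ)
    (hf : f ∈ Ideal.span S) (hff : ∀ u, coeff u f' = D (coeff u f)) : f' ∈ Ideal.span S := by
  classical
  have key : ∃ g ∈ Ideal.span S, ∀ u, coeff u g = D (coeff u f) := by
    refine Submodule.span_induction (p := fun f _ => ∃ g ∈ Ideal.span S,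
      ∀ u, coeff u g = D (coeff u f)) ?_ ?_ ?_ ?_ hf
    · intro h hh
      exact ⟨0, Ideal.zero_mem _, fun u => by rw [hD h hh, coeff_zero]⟩
    · exact ⟨0, Ideal.zero_mem _, fun u => by rw [coeff_zero, map_zero]⟩
    · rintro x y _ _ ⟨x', hx1, hx2⟩ ⟨y', hy1, hy2⟩
      exact ⟨x' + y', Ideal.add_mem _ hx1 hy1, fun u => by rw [coeff_add, coeff_add, map_add, hx2, hy2]⟩
    · rintro a x hx ⟨x', hx1, hx2⟩
      obtain ⟨a', ha, -⟩ := derivation_eval D 0 a
      refine ⟨a * x' + a' * x, Ideal.add_mem _ (Ideal.mul_mem_left _ _ hx1)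
        (Ideal.mul_mem_left _ _ hx), fun u => ?_⟩
      rw [coeff_add, coeff_mul, coeff_mul, smul_eq_mul, coeff_mul, map_sum,
        ← Finset.sum_add_distrib]
      apply Finset.sum_congr rfl
      intro p _
      rw [Derivation.leibniz, hx2, ha, smul_eq_mul, smul_eq_mul]
      ring
  obtain ⟨g, hg1, hg2⟩ := key
  have : f' = g := by
    ext u
    rw [hff, hg2]
  rw [this]
  exact hg1

/-- In dimension at least two the linear forms are not all multiples of one element. -/
lemma not_pencil (I : Ideal (MvPolynomial (Fin m) ℂ))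
    (hdim : (2 : WithBot ℕ∞) ≤ ringKrullDim (MvPolynomial (Fin m) ℂ ⧸ I))
    (θ : MvPolynomial (Fin m) ℂ) (h : ∀ w : Fin m → ℂ, ∃ μ : ℂ, form w - C μ * θ ∈ I) : False := by
  classical
  let φ : Polynomial ℂ →ₐ[ℂ] (MvPolynomial (Fin m) ℂ ⧸ I) := Polynomial.aeval (Ideal.Quotient.mk I θ)
  have hφ : Function.Surjective φ := by
    intro y
    obtain ⟨f, rfl⟩ := Ideal.Quotient.mk_surjective y
    induction f using MvPolynomial.induction_on with
    | C a => exact ⟨Polynomial.C a, by rw [Polynomial.aeval_C]; rfl⟩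
    | add p q hp hq =>
      obtain ⟨p', hp⟩ := hp
      obtain ⟨q', hq⟩ := hq
      exact ⟨p' + q', by rw [map_add, hp, hq, map_add]⟩
    | mul_X p j hp =>
      obtain ⟨p', hp⟩ := hp
      obtain ⟨μ, hμ⟩ := h (Pi.single j 1)
      refine ⟨p' * (Polynomial.C μ * Polynomial.X), ?_⟩
      have h1 : form (Pi.single j 1 : Fin m → ℂ) = X j := by
        rw [form, Finset.sum_eq_single j]
        · rw [Pi.single_eq_same, C_1, one_mul]
        · intro k _ hk
          rw [Pi.single_eq_of_ne hk, C_0, zero_mul]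
        · intro h; exact absurd (Finset.mem_univ _) h
      rw [h1, ← Ideal.Quotient.eq_zero_iff_mem, map_sub, sub_eq_zero] at hμ
      rw [map_mul, hp, map_mul (Ideal.Quotient.mk I), hμ, map_mul φ, Polynomial.aeval_C,
        Polynomial.aeval_X, map_mul]
      rfl
  have h1 := ringKrullDim_le_of_surjective φ.toRingHom hφ
  rw [Polynomial.ringKrullDim_of_isNoetherianRing, ringKrullDim_eq_zero_of_field, zero_add] at h1
  have h2 := hdim.trans h1
  exact absurd h2 (by decide)

variable {K : Type} [Field K] [Algebra ℂ K]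

/-- The data of generic coordinates. -/
structure Generic (S : Set (MvPolynomial (Fin m) ℂ)) (b d : Fin m → Fin m → ℂ) : Prop where
  flex : ∀ wb wd : Fin m → Fin m → ℂ, ∃ D : Derivation ℤ ℂ ℂ, (∀ i j, D (b i j) = wb i j) ∧
    (∀ i j, D (d i j) = wd i j) ∧ ∀ h ∈ S, ∀ u, D (coeff u h) = 0

lemma Generic.form_d_notMem {S : Set (MvPolynomial (Fin m) ℂ)} {b d : Fin m → Fin m → ℂ}
    (H : Generic S b d)
    (hdim : (2 : WithBot ℕ∞) ≤ ringKrullDim (MvPolynomial (Fin m) ℂ ⧸ Ideal.span S)) (i : Fin m) :
    form (d i) ∉ Ideal.span S := by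
  intro hmem
  apply not_pencil _ hdim 0
  intro w
  obtain ⟨D, -, hD2, hD3⟩ := H.flex 0 (fun _ => w)
  refine ⟨0, ?_⟩
  rw [mul_zero, sub_zero]
  apply derivation_mem D S hD3 (form (d i)) _ hmem
  intro u
  rw [← coeff_form]
  congr 2
  funext j
  rw [hD2]

lemma Generic.form_b_notMem {S : Set (MvPolynomial (Fin m) ℂ)} {b d : Fin m → Fin m → ℂ}
    (H : Generic S b d)
    (hdim : (2 : WithBot ℕ∞) ≤ ringKrullDim (MvPolynomial (Fin m) ℂ ⧸ Ideal.span S)) (i : Fin m)
    (c : ℂ) : form (b i) - C c * form (d i) ∉ Ideal.span S := by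
  intro hmem
  apply not_pencil _ hdim (form (d i))
  intro w
  obtain ⟨D, hD1, hD2, hD3⟩ := H.flex (fun _ => w) 0
  refine ⟨D c, ?_⟩
  rw [← form_smul, ← form_sub] at hmem ⊢
  apply derivation_mem D S hD3 _ _ hmem
  intro u
  rw [← coeff_form]
  congr 2
  funext j
  rw [Pi.sub_apply, Pi.sub_apply, map_sub, hD1, Pi.smul_apply, Pi.smul_apply, smul_eq_mul,
    smul_eq_mul, Derivation.leibniz, hD2, Pi.zero_apply, Pi.zero_apply, smul_zero, zero_add,
    smul_eq_mul, mul_comm]

/-- An element algebraic over `ℂ` is in `ℂ`. -/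
lemma transcendental_of_forall_ne (s : K) (h : ∀ c : ℂ, s ≠ algebraMap ℂ K c) :
    Transcendental ℂ s := by
  intro hs
  have h1 : minpoly ℂ s ≠ 0 := minpoly.ne_zero hs.isIntegral
  have h2 : (minpoly ℂ s).degree = 1 :=
    IsAlgClosed.degree_eq_one_of_irreducible ℂ (minpoly.irreducible hs.isIntegral)
  obtain ⟨c, hc⟩ := minpoly.mem_range_of_degree_eq_one ℂ s h2
  exact h c hc.symm

/-- The matrix of the coordinates. -/
def mat (b d : Fin m → Fin m → ℂ) (t : Fin m → ℕ) : Matrix (Fin m) (Fin m) ℂ :=
  Matrix.of fun i => b i + (t i : ℂ) • d i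

lemma mat_apply (b d : Fin m → Fin m → ℂ) (t : Fin m → ℕ) (i j : Fin m) :
    mat b d t i j = b i j + t i * d i j := rfl

/-- The matrix of the coordinates is invertible. -/
lemma Generic.det_ne_zero {S : Set (MvPolynomial (Fin m) ℂ)} {b d : Fin m → Fin m → ℂ}
    (H : Generic S b d) (t : Fin m → ℕ) : (mat b d t).det ≠ 0 := by
  classical
  intro hdet
  obtain ⟨u, hu0, hu⟩ := Matrix.exists_vecMul_eq_zero_iff.2 hdet
  obtain ⟨i0, hi0⟩ := Function.ne_iff.1 hu0
  rw [Pi.zero_apply] at hi0
  let v : Fin m → ℂ := fun i => (u i0)⁻¹ * u i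
  have hv0 : v i0 = 1 := inv_mul_cancel₀ hi0
  have hv : ∀ j, ∑ i, v i * mat b d t i j = 0 := by
    intro j
    have h1 : ∑ i, u i * mat b d t i j = 0 := congrFun hu j
    simp only [v, mul_assoc]
    rw [← Finset.mul_sum, h1, mul_zero]
  have hspan : ∀ w : Fin m → ℂ, w ∈ Submodule.span ℂ
      (Set.range fun i : {i : Fin m // i ≠ i0} => (mat b d t) i.1) := by
    intro w
    obtain ⟨D, hD1, hD2, -⟩ := H.flex (fun i j => if i = i0 then w j else 0) 0
    have hDm : ∀ i j, D (mat b d t i j) = if i = i0 then w j else 0 := by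
      intro i j
      rw [mat_apply, map_add, hD1, Derivation.leibniz, hD2, Derivation.map_natCast]
      simp
    have hv1 : D (v i0) = 0 := by rw [hv0, Derivation.map_one_eq_zero]
    have h1 : w = ∑ i, (-D (v i)) • (mat b d t) i := by
      funext j
      have h2 := congrArg D (hv j)
      rw [map_sum, map_zero] at h2
      simp only [Derivation.leibniz, hDm, smul_eq_mul] at h2
      rw [Finset.sum_add_distrib] at h2
      have h3 : ∑ i, v i * (if i = i0 then w j else 0) = w j := by
        rw [Finset.sum_eq_single i0]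
        · rw [if_pos rfl, hv0, one_mul]
        · intro i _ hi
          rw [if_neg hi, mul_zero]
        · intro h; exact absurd (Finset.mem_univ _) h
      rw [h3] at h2
      rw [Finset.sum_apply]
      simp only [Pi.smul_apply, smul_eq_mul, neg_mul, Finset.sum_neg_distrib]
      have h5 : ∑ i, D (v i) * mat b d t i j = ∑ i, mat b d t i j * D (v i) :=
        Finset.sum_congr rfl fun i _ => mul_comm _ _
      rw [h5]
      linear_combination h2
    rw [h1]
    apply Submodule.sum_mem
    intro i _
    by_cases hi : i = i0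
    · rw [hi, hv1, neg_zero, zero_smul]
      exact Submodule.zero_mem _
    · exact Submodule.smul_mem _ _ (Submodule.subset_span ⟨⟨i, hi⟩, rfl⟩)
  have htop : Submodule.span ℂ (Set.range fun i : {i : Fin m // i ≠ i0} => (mat b d t) i.1) = ⊤ :=
    Submodule.eq_top_iff'.2 hspan
  have hcard := finrank_range_le_card (R := ℂ) (fun i : {i : Fin m // i ≠ i0} => (mat b d t) i.1)
  rw [Set.finrank, htop, finrank_top, Module.finrank_fin_fun, Fintype.card_subtype_compl,
    Fintype.card_fin, Fintype.card_unique] at hcard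
  have := i0.2
  omega

/-- **Choice of the coordinates.** -/
theorem exists_independent [Algebra.EssFiniteType ℂ K] {e : ℕ} (he : 0 < e) (β δ : Fin m → K)
    (hδ : ∀ i, δ i ≠ 0) (hs : ∀ i, Transcendental ℂ (β i / δ i)) :
    ∃ t : Fin m → ℕ, ∀ a : Fin m → ℕ, (∃ w : K, ∏ j, (β j + t j * δ j) ^ a j = w ^ e) →
      ∀ j, e ∣ a j := by
  classical
  have hL0 : ∀ (i : Fin m) (τ : ℕ), β i / δ i + τ ≠ 0 := by
    intro i τ h0
    apply hs i
    have : β i / δ i = algebraMap ℂ K (-(τ : ℂ)) := by
      rw [map_neg, map_natCast]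
      linear_combination h0
    rw [this]
    exact isAlgebraic_algebraMap _
  have hLe : ∀ (i : Fin m) (τ : ℕ), β i + τ * δ i = (β i / δ i + τ) * δ i := by
    intro i τ
    rw [add_mul, div_mul_cancel₀ _ (hδ i)]
  have hL : ∀ (i : Fin m) (τ : ℕ), β i + τ * δ i ≠ 0 := by
    intro i τ
    rw [hLe]
    exact mul_ne_zero (hL0 i τ) (hδ i)
  have key : ∀ s : Finset (Fin m), ∃ t : Fin m → ℕ, ∀ a : Fin m → ℕ, (∀ j, j ∉ s → a j = 0) →
      (∃ w : K, ∏ j, (β j + t j * δ j) ^ a j = w ^ e) → ∀ j, e ∣ a j := by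
    intro s
    induction s using Finset.induction_on with
    | empty =>
      refine ⟨0, fun a ha _ j => ?_⟩
      rw [ha j (Finset.notMem_empty j)]
      exact dvd_zero _
    | insert i s hi ih =>
      obtain ⟨t, ht⟩ := ih
      let B : (Fin m → Fin e) → Set ℕ := fun pat =>
        {τ | (pat i : ℕ) ≠ 0 ∧ ∃ w : K, (β i / δ i + τ) ^ (pat i : ℕ) *
          (δ i ^ (pat i : ℕ) * ∏ j ∈ Finset.univ.erase i, (β j + t j * δ j) ^ (pat j : ℕ)) = w ^ e}
      have hB : ∀ pat, (B pat).Finite := by
        intro pat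
        by_contra hinf
        have hinf' : (B pat).Infinite := hinf
        obtain ⟨τ0, hτ0⟩ := hinf'.nonempty
        have h1 : e ∣ (pat i : ℕ) := by
          refine pencil (β i / δ i) _ (hs i) ?_ he hinf' (fun τ hτ => hτ.2)
          exact mul_ne_zero (pow_ne_zero _ (hδ i))
            (Finset.prod_ne_zero_iff.2 fun j _ => pow_ne_zero _ (hL j _))
        have h2 := Nat.le_of_dvd (Nat.pos_of_ne_zero hτ0.1) h1
        have h3 := (pat i).2
        omega
      have hU : (⋃ pat, B pat).Finite := Set.finite_iUnion hB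
      obtain ⟨τ, hτ⟩ := hU.exists_notMem
      simp only [Set.mem_iUnion, not_exists] at hτ
      refine ⟨Function.update t i τ, ?_⟩
      rintro a ha ⟨w, hw⟩
      have hLi : ∀ j, j ≠ i → Function.update t i τ j = t j := fun j hj =>
        Function.update_of_ne hj _ _
      have hprod : ∀ c : Fin m → ℕ, ∏ j, (β j + (Function.update t i τ j : ℕ) * δ j) ^ c j =
          (β i + τ * δ i) ^ c i * ∏ j ∈ Finset.univ.erase i, (β j + t j * δ j) ^ c j := by
        intro c
        rw [← Finset.mul_prod_erase Finset.univ _ (Finset.mem_univ i), Function.update_self]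
        congr 1
        apply Finset.prod_congr rfl
        intro j hj
        rw [hLi j (Finset.ne_of_mem_erase hj)]
      by_cases hdi : e ∣ a i
      · obtain ⟨k, hk⟩ := hdi
        have h1 : ∀ j, e ∣ (Function.update a i 0) j := by
          apply ht
          · intro j hj
            by_cases hji : j = i
            · rw [hji, Function.update_self]
            · rw [Function.update_of_ne hji]
              exact ha j (by rw [Finset.mem_insert]; tauto)
          · refine ⟨w / (β i + τ * δ i) ^ k, ?_⟩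
            rw [← Finset.mul_prod_erase Finset.univ _ (Finset.mem_univ i), Function.update_self,
              pow_zero, one_mul, div_pow, ← hw, hprod, hk, ← pow_mul, mul_comm k e,
              mul_div_cancel_left₀ _ (pow_ne_zero _ (hL i τ))]
            apply Finset.prod_congr rfl
            intro j hj
            rw [Function.update_of_ne (Finset.ne_of_mem_erase hj)]
        intro j
        by_cases hji : j = i
        · rw [hji, hk]; exact dvd_mul_right _ _
        · have := h1 j
          rwa [Function.update_of_ne hji] at this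
      · exfalso
        let pat : Fin m → Fin e := fun j => ⟨a j % e, Nat.mod_lt _ he⟩
        apply hτ pat
        refine ⟨?_, w / ∏ j, (β j + (Function.update t i τ j : ℕ) * δ j) ^ (a j / e), ?_⟩
        · intro h0
          exact hdi (Nat.dvd_of_mod_eq_zero h0)
        · have h1 : ∏ j, (β j + (Function.update t i τ j : ℕ) * δ j) ^ (a j / e) ≠ 0 :=
            Finset.prod_ne_zero_iff.2 fun j _ => pow_ne_zero _ (hL j _)
          have h2 : (β i + τ * δ i) ^ (pat i : ℕ) * ∏ j ∈ Finset.univ.erase i,
              (β j + t j * δ j) ^ (pat j : ℕ) =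
              ∏ j, (β j + (Function.update t i τ j : ℕ) * δ j) ^ (pat j : ℕ) :=
            (hprod (fun j => (pat j : ℕ))).symm
          rw [← mul_assoc, ← mul_pow, ← hLe, h2, div_pow, ← hw, eq_div_iff (pow_ne_zero _ h1),
            ← Finset.prod_pow, ← Finset.prod_mul_distrib]
          apply Finset.prod_congr rfl
          intro j _
          rw [← pow_mul, ← pow_add]
          congr 1
          change a j % e + a j / e * e = a j
          exact Nat.mod_add_div' _ _
  obtain ⟨t, ht⟩ := key Finset.univ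
  exact ⟨t, fun a ha => ht a (fun j hj => absurd (Finset.mem_univ j) hj) ha⟩

end Pool.Agent.H30.HC
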